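import Pool.Agent.V7H21.MW.Gauss

/-!
The average over the coefficient of the difference between the fine and the coarse count.
-/

set_option autoImplicit false

namespace Pool.Agent.V7H21.MW

open MeasureTheory Finset
open scoped Real

lemma exp_pi_le (j : ℕ) {x : ℝ} (hx : (j : ℝ) ≤ x) :
    Real.exp (-(π * x ^ 2)) ≤ (1 / 8 : ℝ) ^ j := by
  have h1 : (j : ℝ) ≤ (j : ℝ) ^ 2 := by
    rcases Nat.eq_zero_or_pos j with rfl | h
    · simp
    · have : (1 : ℝ) ≤ j := by exact_mod_cast h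
      nlinarith
  have hj : (0 : ℝ) ≤ j := by positivity
  have h2 : (j : ℝ) ^ 2 ≤ x ^ 2 := by gcongr
  have h3 : Real.exp (-(π * x ^ 2)) ≤ Real.exp (-3 * j) := by
    apply Real.exp_le_exp.2
    have := Real.pi_gt_three
    nlinarith
  have h4 : Real.exp (-3 * j) = (Real.exp (-3)) ^ j := by
    rw [← Real.exp_nat_mul]; congr 1; ring
  have h5 : Real.exp (-3) ≤ 1 / 8 := by
    rw [Real.exp_neg, inv_le_comm₀ (Real.exp_pos _) (by norm_num)]
    have h6 : (1 : ℝ) + 1 ≤ Real.exp 1 := Real.add_one_le_exp 1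
    have h7 : Real.exp 3 = Real.exp 1 ^ 3 := by rw [← Real.exp_nat_mul]; norm_num
    rw [h7]
    nlinarith [pow_le_pow_left₀ (by norm_num : (0 : ℝ) ≤ 1 + 1) h6 3]
  rw [h4] at h3
  exact h3.trans (pow_le_pow_left₀ (Real.exp_pos _).le h5 _)

lemma sum_weights (J : ℕ) : ∑ j ∈ range J, ((j : ℝ) + 1) * (1 / 8 : ℝ) ^ j ≤ 2 := by
  have h1 : ∀ j : ℕ, ((j : ℝ) + 1) * (1 / 8 : ℝ) ^ j ≤ (1 / 2 : ℝ) ^ j := by
    intro j
    have h2 : ((j : ℝ) + 1) ≤ 2 ^ j := by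
      have : j + 1 ≤ 2 ^ j := Nat.lt_two_pow_self
      exact_mod_cast this
    have h3 : (1 / 8 : ℝ) ^ j ≤ (1 / 4 : ℝ) ^ j := pow_le_pow_left₀ (by norm_num) (by norm_num) _
    calc ((j : ℝ) + 1) * (1 / 8 : ℝ) ^ j ≤ 2 ^ j * (1 / 4 : ℝ) ^ j :=
          mul_le_mul h2 h3 (by positivity) (by positivity)
      _ = (1 / 2 : ℝ) ^ j := by rw [← mul_pow]; norm_num
  refine (sum_le_sum fun j _ => h1 j).trans ?_
  have h4 := geom_sum_eq (show (1 / 2 : ℝ) ≠ 1 by norm_num) J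
  rw [h4]
  have h5 : (0 : ℝ) < (1 / 2 : ℝ) ^ J := by positivity
  rw [div_le_iff_of_neg (by norm_num)]
  linarith

section

variable {ι : Type*} {I : Finset ι} {a : ι → ℕ} {K N : ℝ}

open Classical in
/-- the family is evenly distributed up to constants -/
def Regular (I : Finset ι) (a : ι → ℕ) (K N : ℝ) : Prop :=
  ∀ z h : ℝ, 0 ≤ h → ((I.filter fun i => |(a i : ℝ) - z| ≤ h).card : ℝ) ≤ K * (I.card * h / N + 1)

lemma sum_exp_le (hR : Regular I a K N) (hK : 0 ≤ K) (hN : 0 < N) {σ : ℝ} (hσ : 0 < σ) (z : ℝ) :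
    ∑ i ∈ I, Real.exp (-(π * ((a i : ℝ) - z) ^ 2 / σ ^ 2)) ≤ 2 * K * (I.card * σ / N + 1) := by
  classical
  set x : ι → ℝ := fun i => |(a i : ℝ) - z| / σ with hx
  have hx0 : ∀ i, 0 ≤ x i := fun i => by positivity
  obtain ⟨J, hJ⟩ : ∃ J : ℕ, ∀ i ∈ I, x i < J := by
    obtain ⟨J, hJ⟩ := exists_nat_gt (∑ i ∈ I, x i)
    exact ⟨J, fun i hi => (single_le_sum (fun i _ => hx0 i) hi).trans_lt hJ⟩
  have h1 : ∀ i ∈ I, Real.exp (-(π * ((a i : ℝ) - z) ^ 2 / σ ^ 2)) ≤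
      ∑ j ∈ range J, (if x i ≤ j + 1 then (1 / 8 : ℝ) ^ j else 0) := by
    intro i hi
    have h2 : π * ((a i : ℝ) - z) ^ 2 / σ ^ 2 = π * (x i) ^ 2 := by
      simp only [hx]; rw [div_pow, sq_abs]; ring
    rw [h2]
    have h3 : ⌊x i⌋₊ ∈ range J := by
      rw [mem_range]
      exact (Nat.floor_lt (hx0 i)).2 (hJ i hi)
    refine (exp_pi_le ⌊x i⌋₊ (Nat.floor_le (hx0 i))).trans ?_
    have h4 := single_le_sum (f := fun j : ℕ => if x i ≤ (j : ℝ) + 1 then (1 / 8 : ℝ) ^ j else 0)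
      (fun j _ => by positivity) h3
    rw [if_pos (Nat.lt_floor_add_one (x i)).le] at h4
    exact h4
  refine (sum_le_sum h1).trans ?_
  rw [sum_comm]
  have h5 : ∀ j ∈ range J, ∑ i ∈ I, (if x i ≤ (j : ℝ) + 1 then (1 / 8 : ℝ) ^ j else 0) ≤
      (K * (I.card * σ / N + 1)) * (((j : ℝ) + 1) * (1 / 8 : ℝ) ^ j) := by
    intro j _
    rw [← sum_filter, sum_const, nsmul_eq_mul]
    have h6 : (I.filter fun i => x i ≤ (j : ℝ) + 1) =
        I.filter fun i => |(a i : ℝ) - z| ≤ ((j : ℝ) + 1) * σ := by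
      refine filter_congr fun i _ => ?_
      simp only [hx]
      rw [div_le_iff₀ hσ]
    rw [h6]
    have h7 := hR z (((j : ℝ) + 1) * σ) (by positivity)
    have h8 : K * (I.card * (((j : ℝ) + 1) * σ) / N + 1) ≤
        K * (I.card * σ / N + 1) * ((j : ℝ) + 1) := by
      have h9 : (I.card : ℝ) * (((j : ℝ) + 1) * σ) / N + 1 ≤ (I.card * σ / N + 1) * ((j : ℝ) + 1) := by
        have : (0 : ℝ) ≤ j := by positivity
        have e : (I.card : ℝ) * (((j : ℝ) + 1) * σ) / N = (I.card * σ / N) * ((j : ℝ) + 1) := by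
          field_simp
        rw [e]; nlinarith
      calc _ ≤ K * ((I.card * σ / N + 1) * ((j : ℝ) + 1)) := mul_le_mul_of_nonneg_left h9 hK
        _ = _ := by ring
    calc _ ≤ (K * (I.card * σ / N + 1) * ((j : ℝ) + 1)) * (1 / 8 : ℝ) ^ j :=
          mul_le_mul_of_nonneg_right (h7.trans h8) (by positivity)
      _ = _ := by ring
  refine (sum_le_sum h5).trans ?_
  rw [← mul_sum]
  have h10 := sum_weights J
  have h11 : 0 ≤ K * (I.card * σ / N + 1) := by positivity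
  calc _ ≤ K * (I.card * σ / N + 1) * 2 := mul_le_mul_of_nonneg_left h10 h11
    _ = _ := by ring

/-- the averaged kernel -/
noncomputable def F (η H u v : ℝ) : ℝ := g (Real.sqrt (η ^ 2 + v ^ 2)) u - g (Real.sqrt (H ^ 2 + v ^ 2)) u

lemma F_le_far {η H V u v : ℝ} (hη : 0 < η) (hH : η ≤ H) (hV : 0 < V) (hv : V ≤ |v|) :
    F η H u v ≤ H ^ 2 / (2 * V ^ 3) := by
  unfold F g
  have hH0 : 0 < H := hη.trans_le hH
  set s := Real.sqrt (η ^ 2 + v ^ 2) with hs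
  set S := Real.sqrt (H ^ 2 + v ^ 2) with hS
  have hs0 : 0 < s := Real.sqrt_pos.2 (by positivity)
  have hS0 : 0 < S := Real.sqrt_pos.2 (by positivity)
  have hsS : s ≤ S := Real.sqrt_le_sqrt (by gcongr)
  have hv0 : 0 < |v| := hV.trans_le hv
  have hvs : |v| ≤ s := by
    rw [← Real.sqrt_sq_eq_abs]
    exact Real.sqrt_le_sqrt (by nlinarith [sq_nonneg η])
  have hS2 : S ^ 2 = H ^ 2 + |v| ^ 2 := by rw [hS, Real.sq_sqrt (by positivity), sq_abs]
  have hvS : |v| ≤ S := hvs.trans hsS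
  have h1 : Real.exp (-(π * u ^ 2 / s ^ 2)) ≤ Real.exp (-(π * u ^ 2 / S ^ 2)) := by
    apply Real.exp_le_exp.2
    have : π * u ^ 2 / S ^ 2 ≤ π * u ^ 2 / s ^ 2 := by gcongr
    linarith
  have h2 : Real.exp (-(π * u ^ 2 / S ^ 2)) ≤ 1 := by
    rw [Real.exp_le_one_iff]
    have : 0 ≤ π * u ^ 2 / S ^ 2 := by positivity
    linarith
  have h3 : S⁻¹ ≤ s⁻¹ := inv_anti₀ hs0 hsS
  have h4 : s⁻¹ ≤ |v|⁻¹ := inv_anti₀ hv0 hvs
  have hE := Real.exp_pos (-(π * u ^ 2 / S ^ 2))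
  have hs1 : 0 < s⁻¹ := inv_pos.2 hs0
  have h5 : s⁻¹ * Real.exp (-(π * u ^ 2 / s ^ 2)) - S⁻¹ * Real.exp (-(π * u ^ 2 / S ^ 2)) ≤
      |v|⁻¹ - S⁻¹ := by
    have e1 := mul_le_mul_of_nonneg_left h1 hs1.le
    have e2 : (s⁻¹ - S⁻¹) * Real.exp (-(π * u ^ 2 / S ^ 2)) ≤ (s⁻¹ - S⁻¹) * 1 :=
      mul_le_mul_of_nonneg_left h2 (by linarith)
    linarith
  refine h5.trans ?_
  have h6 : |v|⁻¹ - S⁻¹ ≤ H ^ 2 / (2 * |v| ^ 3) := by
    have e3 : |v|⁻¹ - S⁻¹ = (S - |v|) / (|v| * S) := by field_simp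
    have e4 : (S - |v|) * (2 * |v|) ≤ H ^ 2 := by nlinarith
    rw [e3, div_le_div_iff₀ (by positivity) (by positivity)]
    calc (S - |v|) * (2 * |v| ^ 3) = (S - |v|) * (2 * |v|) * (|v| * |v|) := by ring
      _ ≤ H ^ 2 * (|v| * |v|) := mul_le_mul_of_nonneg_right e4 (by positivity)
      _ ≤ H ^ 2 * (|v| * S) := by gcongr
  refine h6.trans ?_
  gcongr

lemma F_le {η H u v : ℝ} (hη : 0 < η) (hH : η ≤ H) : F η H u v ≤
    (Real.sqrt (η ^ 2 + v ^ 2))⁻¹ * Real.exp (-(π * u ^ 2 / (Real.sqrt (η ^ 2 + v ^ 2)) ^ 2)) := by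
  have h1 := g_pos (Real.sqrt_pos.2 (show 0 < H ^ 2 + v ^ 2 by
    have : 0 < H := hη.trans_le hH
    positivity)) u
  unfold F
  have : g (Real.sqrt (η ^ 2 + v ^ 2)) u = (Real.sqrt (η ^ 2 + v ^ 2))⁻¹ *
    Real.exp (-(π * u ^ 2 / (Real.sqrt (η ^ 2 + v ^ 2)) ^ 2)) := rfl
  linarith

/-- the sum of the averaged kernel over the pairs, `v` fixed -/
lemma inner_le (hR : Regular I a K N) (hK : 0 ≤ K) (hN : 0 < N) {η H s : ℝ} (hη : 0 < η) (hH : η ≤ H)
    (v : ℝ) (hs : Real.sqrt (η ^ 2 + v ^ 2) ≤ s) :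
    ∑ r ∈ I ×ˢ I, F η H ((a r.1 : ℝ) - a r.2) v ≤
      (Real.sqrt (η ^ 2 + v ^ 2))⁻¹ * (I.card * (2 * K * (I.card * s / N + 1))) := by
  set σ := Real.sqrt (η ^ 2 + v ^ 2) with hσd
  have hσ : 0 < σ := Real.sqrt_pos.2 (by positivity)
  calc ∑ r ∈ I ×ˢ I, F η H ((a r.1 : ℝ) - a r.2) v
      ≤ ∑ r ∈ I ×ˢ I, σ⁻¹ * Real.exp (-(π * ((a r.1 : ℝ) - a r.2) ^ 2 / s ^ 2)) := by
        refine sum_le_sum fun r _ => (F_le hη hH).trans ?_
        rw [← hσd]
        refine mul_le_mul_of_nonneg_left ?_ (inv_pos.2 hσ).le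
        apply Real.exp_le_exp.2
        have : π * ((a r.1 : ℝ) - a r.2) ^ 2 / s ^ 2 ≤ π * ((a r.1 : ℝ) - a r.2) ^ 2 / σ ^ 2 := by
          gcongr
        linarith
    _ = σ⁻¹ * ∑ i ∈ I, ∑ i' ∈ I, Real.exp (-(π * ((a i' : ℝ) - a i) ^ 2 / s ^ 2)) := by
        rw [← mul_sum, sum_product_right]
    _ ≤ σ⁻¹ * ∑ _i ∈ I, 2 * K * (I.card * s / N + 1) := by
        refine mul_le_mul_of_nonneg_left ?_ (inv_pos.2 hσ).le
        exact sum_le_sum fun i _ => sum_exp_le hR hK hN (hσ.trans_le hs) _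
    _ = _ := by rw [sum_const, nsmul_eq_mul]

open Classical in
lemma card_pairs (hR : Regular I a K N) {h : ℝ} (hh : 0 ≤ h) :
    (((I ×ˢ I).filter fun q => |(a q.1 : ℝ) - a q.2| ≤ h).card : ℝ) ≤
      I.card * (K * (I.card * h / N + 1)) := by
  rw [card_filter, sum_product_right, Nat.cast_sum]
  calc ∑ j ∈ I, ((∑ i ∈ I, if |(a i : ℝ) - a j| ≤ h then 1 else 0 : ℕ) : ℝ)
      ≤ ∑ _j ∈ I, K * (I.card * h / N + 1) := by
        refine sum_le_sum fun j _ => ?_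
        rw [← card_filter]
        exact hR _ _ hh
    _ = _ := by rw [sum_const, nsmul_eq_mul]

/-- the bound for the average -/
theorem total_le {ι' : Type*} {J : Finset ι'} {b : ι' → ℕ} (hR : Regular I a K N)
    (hR' : Regular J b K N) (hK : 0 ≤ K) (hN : 0 < N) {η H V T : ℝ} (hη : 0 < η)
    (hη1 : η ≤ 1) (hH : η ≤ H) (hV : 0 < V) (hT : 0 < T) :
    ∑ q ∈ J ×ˢ J, ∑ r ∈ I ×ˢ I, F η H ((a r.1 : ℝ) - a r.2) ((b q.1 : ℝ) - b q.2) ≤
      2 * (I.card : ℝ) * J.card * K ^ 2 / η * (I.card / N + 1) +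
      4 * (I.card : ℝ) ^ 2 * J.card * K ^ 2 / N * (J.card * V / N + 1) +
      2 * (I.card : ℝ) * J.card * K ^ 2 * (J.card * T / N + 1) +
      2 * (I.card : ℝ) * (J.card : ℝ) ^ 2 * K / T +
      (I.card : ℝ) ^ 2 * (J.card : ℝ) ^ 2 * (H ^ 2 / (2 * V ^ 3)) := by
  classical
  set n : ℝ := (I.card : ℝ) with hn
  set n' : ℝ := (J.card : ℝ) with hn'
  have hn0 : 0 ≤ n := by positivity
  have hn0' : 0 ≤ n' := by positivity
  have hH0 : 0 < H := hη.trans_le hH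
  set A0 : ℝ := 2 * n * K / η * (n / N + 1) with hA0
  set A1 : ℝ := 4 * n ^ 2 * K / N with hA1
  obtain ⟨A2, hA2⟩ : ∃ A2 : ℝ, A2 = 2 * n * K := ⟨_, rfl⟩
  set A3 : ℝ := n ^ 2 * (H ^ 2 / (2 * V ^ 3)) with hA3
  have hA0' : 0 ≤ A0 := by positivity
  have hA1' : 0 ≤ A1 := by positivity
  have hA2' : 0 ≤ A2 := by rw [hA2]; positivity
  have hA3' : 0 ≤ A3 := by positivity
  have key : ∀ q ∈ J ×ˢ J, ∑ r ∈ I ×ˢ I, F η H ((a r.1 : ℝ) - a r.2) ((b q.1 : ℝ) - b q.2) ≤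
      A0 * (if |(b q.1 : ℝ) - b q.2| ≤ 0 then 1 else 0) +
      A1 * (if |(b q.1 : ℝ) - b q.2| ≤ V then 1 else 0) +
      A2 * (if |(b q.1 : ℝ) - b q.2| ≤ T then 1 else 0) + A2 / T + A3 := by
    intro q _
    set v : ℝ := (b q.1 : ℝ) - b q.2 with hv
    have i0 : (0 : ℝ) ≤ (if |v| ≤ 0 then 1 else 0) := by positivity
    have i1 : (0 : ℝ) ≤ (if |v| ≤ V then 1 else 0) := by positivity
    have i2 : (0 : ℝ) ≤ (if |v| ≤ T then 1 else 0) := by positivity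
    have hAT : 0 ≤ A2 / T := by positivity
    rcases lt_or_ge V |v| with h | h
    · -- far
      have h1 : ∑ r ∈ I ×ˢ I, F η H ((a r.1 : ℝ) - a r.2) v ≤ A3 := by
        calc _ ≤ ∑ _r ∈ I ×ˢ I, H ^ 2 / (2 * V ^ 3) :=
              sum_le_sum fun r _ => F_le_far hη hH hV h.le
          _ = A3 := by
            rw [sum_const, card_product, nsmul_eq_mul, hA3]
            push_cast
            ring
      have e0 := mul_nonneg hA0' i0
      have e1 := mul_nonneg hA1' i1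
      have e2 := mul_nonneg hA2' i2
      linarith
    rcases eq_or_ne v 0 with h0 | h0
    · have h1 := inner_le hR hK hN (s := 1) hη hH v (by
        rw [h0]; simp only [ne_eq, OfNat.ofNat_ne_zero, not_false_eq_true, zero_pow, add_zero]
        rw [Real.sqrt_sq hη.le]; exact hη1)
      have h2 : Real.sqrt (η ^ 2 + v ^ 2) = η := by
        rw [h0]; simp only [ne_eq, OfNat.ofNat_ne_zero, not_false_eq_true, zero_pow, add_zero]
        rw [Real.sqrt_sq hη.le]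
      rw [h2] at h1
      have h3 : η⁻¹ * (n * (2 * K * (n * 1 / N + 1))) = A0 := by rw [hA0]; field_simp
      rw [h3] at h1
      have h4 : (if |v| ≤ 0 then (1 : ℝ) else 0) = 1 := by rw [h0]; simp
      rw [h4]
      have e1 := mul_nonneg hA1' i1
      have e2 := mul_nonneg hA2' i2
      linarith
    · -- near
      have hv1 : 1 ≤ |v| := by
        have h1 : v = (((b q.1 : ℤ) - (b q.2 : ℤ) : ℤ) : ℝ) := by rw [hv]; push_cast; ring
        have h2 : ((b q.1 : ℤ) - (b q.2 : ℤ) : ℤ) ≠ 0 := by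
          intro h; apply h0; rw [h1, h]; simp
        rw [h1, ← Int.cast_abs]
        exact_mod_cast Int.one_le_abs h2
      have hs : Real.sqrt (η ^ 2 + v ^ 2) ≤ 2 * |v| := by
        rw [Real.sqrt_le_left (by positivity)]
        have : v ^ 2 = |v| ^ 2 := (sq_abs v).symm
        rw [this]
        nlinarith
      have hvs : |v| ≤ Real.sqrt (η ^ 2 + v ^ 2) := by
        rw [← Real.sqrt_sq_eq_abs]
        exact Real.sqrt_le_sqrt (by nlinarith [sq_nonneg η])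
      have h1 := inner_le hR hK hN hη hH v hs
      have h2 : (Real.sqrt (η ^ 2 + v ^ 2))⁻¹ ≤ |v|⁻¹ := inv_anti₀ (by linarith) hvs
      have h3 : ∑ r ∈ I ×ˢ I, F η H ((a r.1 : ℝ) - a r.2) v ≤ A1 + A2 / |v| := by
        refine h1.trans ?_
        calc _ ≤ |v|⁻¹ * (n * (2 * K * (n * (2 * |v|) / N + 1))) :=
              mul_le_mul_of_nonneg_right h2 (by positivity)
          _ = A1 + A2 / |v| := by rw [hA1, hA2]; field_simp; ring
      have h4 : (if |v| ≤ V then (1 : ℝ) else 0) = 1 := if_pos h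
      have h5 : A2 / |v| ≤ A2 * (if |v| ≤ T then 1 else 0) + A2 / T := by
        rcases le_or_gt |v| T with h6 | h6
        · rw [if_pos h6, mul_one]
          have : A2 / |v| ≤ A2 := div_le_self hA2' hv1
          linarith
        · rw [if_neg (not_le.2 h6), mul_zero, zero_add]
          gcongr
      have e0 := mul_nonneg hA0' i0
      rw [h4]
      linarith
  refine (sum_le_sum key).trans ?_
  simp only [sum_add_distrib, ← mul_sum, sum_const, card_product, nsmul_eq_mul]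
  have c0 := card_pairs hR' (h := 0) le_rfl
  have c1 := card_pairs hR' hV.le
  have c2 := card_pairs hR' hT.le
  have d : ∀ h : ℝ, ∑ q ∈ J ×ˢ J, (if |(b q.1 : ℝ) - b q.2| ≤ h then (1 : ℝ) else 0) =
      (((J ×ˢ J).filter fun q => |(b q.1 : ℝ) - b q.2| ≤ h).card : ℝ) := by
    intro h
    rw [card_filter, Nat.cast_sum]
    exact sum_congr rfl fun q _ => by split_ifs <;> simp
  rw [d, d, d]
  have f0 := mul_le_mul_of_nonneg_left c0 hA0'
  have f1 := mul_le_mul_of_nonneg_left c1 hA1'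
  have f2 := mul_le_mul_of_nonneg_left c2 hA2'
  have g0 : A0 * (n' * (K * (n' * 0 / N + 1))) = 2 * n * n' * K ^ 2 / η * (n / N + 1) := by
    rw [hA0]; field_simp; ring
  have g1 : A1 * (n' * (K * (n' * V / N + 1))) =
      4 * n ^ 2 * n' * K ^ 2 / N * (n' * V / N + 1) := by
    rw [hA1]; field_simp
  have g2 : A2 * (n' * (K * (n' * T / N + 1))) = 2 * n * n' * K ^ 2 * (n' * T / N + 1) := by
    rw [hA2]; ring
  have g3 : ((J.card * J.card : ℕ) : ℝ) * (A2 / T) = 2 * n * n' ^ 2 * K / T := by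
    rw [hA2]; push_cast; rw [← hn']; field_simp
  have g4 : ((J.card * J.card : ℕ) : ℝ) * A3 = n ^ 2 * n' ^ 2 * (H ^ 2 / (2 * V ^ 3)) := by
    rw [hA3]; push_cast; rw [← hn']; ring
  rw [g3, g4]
  rw [g0] at f0
  rw [g1] at f1
  rw [g2] at f2
  linarith

end

end Pool.Agent.V7H21.MW
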