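import Pool.Agent.V7H21.MW.Main

/-!
Borel-Cantelli and the end of the proof.
-/

set_option autoImplicit false

namespace Pool.Agent.V7H21.MW

open MeasureTheory Finset Filter Topology
open scoped Real ENNReal

variable {q Λ s : ℕ}

lemma Nm_eq (q m : ℕ) : Nm q m = ((16 : ℝ) ^ (q + 1)) ^ m := by
  unfold Nm
  rw [← pow_mul, ← pow_mul, show (16 : ℝ) = 2 ^ 4 by norm_num, ← pow_mul]
  congr 1
  ring

lemma Nm_succ (q m : ℕ) : Nm q (m + 1) = (16 : ℝ) ^ (q + 1) * Nm q m := by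
  rw [Nm_eq, Nm_eq, pow_succ, mul_comm]

lemma summable_phi {κ : ℝ} (hκ : 0 < κ) :
    Summable (fun m : ℕ => ((2 : ℝ) ^ m)⁻¹ + (Nm q m) ^ (-κ)) := by
  apply Summable.add
  · have : (fun m : ℕ => ((2 : ℝ) ^ m)⁻¹) = fun m : ℕ => (1 / 2 : ℝ) ^ m := by
      ext m; rw [one_div, inv_pow]
    rw [this]
    exact summable_geometric_two
  · have : (fun m : ℕ => (Nm q m) ^ (-κ)) = fun m : ℕ => (((16 : ℝ) ^ (q + 1)) ^ (-κ)) ^ m := by
      ext m
      rw [Nm_eq]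
      obtain ⟨b, hb⟩ : ∃ b : ℝ, b = (16 : ℝ) ^ (q + 1) := ⟨_, rfl⟩
      have hb0 : 0 ≤ b := by rw [hb]; positivity
      rw [← hb, ← Real.rpow_natCast b m, ← Real.rpow_natCast (b ^ (-κ)) m, ← Real.rpow_mul hb0,
        ← Real.rpow_mul hb0, mul_comm]
    rw [this]
    apply summable_geometric_of_lt_one (by positivity)
    apply Real.rpow_lt_one_of_one_lt_of_neg _ (by linarith)
    exact one_lt_pow₀ (by norm_num) (by omega)

/-- the bad coefficients at the scale `m` -/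
def Bad (q Λ s s' A : ℕ) (δ c : ℝ) (m : ℕ) : Set ℝ :=
  {α : ℝ | |α| ≤ A ∧
    c / 2 * (((Im q Λ s m).card : ℝ) ^ 2 * ((Im q Λ s' m).card : ℝ) ^ 2 / Nm q m) ≤
    Y (Im q Λ s m) (Im q Λ s' m) (val q) (val q) ((Nm q m) ^ (-δ))
      (((2 : ℝ) ^ m) ^ (4 * q + 2)) α}

lemma card_pos_Im (hΛ : 2 ≤ Λ) (m : ℕ) : (0 : ℝ) < (Im q Λ s m).card := by
  refine lt_of_lt_of_le ?_ (card_Im_ge hΛ m)
  have := one_le_Nm (q := q) m
  have : 0 < Nm q m := by linarith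
  positivity

lemma tsum_bad {s' : ℕ} (hΛ : 2 ≤ Λ) (hs : s' ≤ s) (A : ℕ) {δ κ c : ℝ} (hδ : 0 ≤ δ) (hκ0 : 0 < κ)
    (hκ : 2 * κ = 1 - rho q ^ (s + 1) - rho q ^ (s' + 1) - δ) (hc : 0 < c) :
    ∑' m, volume (Bad q Λ s s' A δ c m) ≠ ∞ := by
  obtain ⟨C, hC, h⟩ := total_Im (q := q) (Λ := Λ) (s := s) hΛ hs hδ hκ0.le hκ
  have h1 : ∀ m, volume (Bad q Λ s s' A δ c m) ≤ ENNReal.ofReal
      (Real.exp (π * (A : ℝ) ^ 2) * (2 * C / c) * (((2 : ℝ) ^ m)⁻¹ + (Nm q m) ^ (-κ))) := by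
    intro m
    have hN1 := one_le_Nm (q := q) m
    have hN0 : 0 < Nm q m := by linarith
    have hn := card_pos_Im (q := q) (s := s) hΛ m
    have hn' := card_pos_Im (q := q) (s := s') hΛ m
    have hη0 : 0 < (Nm q m) ^ (-δ) := Real.rpow_pos_of_pos hN0 _
    have hη1 : (Nm q m) ^ (-δ) ≤ 1 := Real.rpow_le_one_of_one_le_of_nonpos hN1 (by linarith)
    have hH1 : (1 : ℝ) ≤ ((2 : ℝ) ^ m) ^ (4 * q + 2) := one_le_pow₀ (one_le_pow₀ (by norm_num))
    have hG : 0 < ((Im q Λ s m).card : ℝ) ^ 2 * ((Im q Λ s' m).card : ℝ) ^ 2 / Nm q m := by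
      positivity
    refine (measure_bad (I := Im q Λ s m) (a := val q) (J := Im q Λ s' m) (b := val q) hη0
      (hη1.trans hH1) (by positivity : 0 < c / 2 *
        (((Im q Λ s m).card : ℝ) ^ 2 * ((Im q Λ s' m).card : ℝ) ^ 2 / Nm q m))).trans ?_
    apply ENNReal.ofReal_le_ofReal
    rw [div_le_iff₀ (by positivity)]
    have h2 := mul_le_mul_of_nonneg_left (h m) (Real.exp_pos (π * (A : ℝ) ^ 2)).le
    refine h2.trans (le_of_eq ?_)
    field_simp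
  have h3 : Summable (fun m : ℕ =>
      Real.exp (π * (A : ℝ) ^ 2) * (2 * C / c) * (((2 : ℝ) ^ m)⁻¹ + (Nm q m) ^ (-κ))) :=
    (summable_phi hκ0).mul_left _
  exact ne_top_of_le_ne_top h3.tsum_ofReal_ne_top (ENNReal.tsum_le_tsum h1)

/-- the threshold for the last step -/
lemma exists_threshold (q : ℕ) {δ δ' c c₃ : ℝ} (hδ : δ < δ') (hc : 0 < c) (hc₃ : 0 < c₃) :
    ∃ m₂ : ℕ, ∀ m ≥ m₂,
      (Nm q m) ^ (1 + δ') * Real.exp (-(π * (c₃ * (Nm q m) ^ (δ' - δ)) ^ 2)) < c / 2 := by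
  have h1 := tendsto_rpow_mul_exp_neg_mul_atTop_nhds_zero ((1 + δ') / (2 * (δ' - δ))) (π * c₃ ^ 2)
    (by positivity)
  have h2 : Tendsto (fun m : ℕ => (Nm q m) ^ (2 * (δ' - δ))) atTop atTop := by
    have h3 : Tendsto (fun m : ℕ => Nm q m) atTop atTop := by
      simp_rw [Nm_eq]
      exact tendsto_pow_atTop_atTop_of_one_lt (one_lt_pow₀ (by norm_num) (by omega))
    exact (tendsto_rpow_atTop (by linarith)).comp h3
  have h4 := (h1.comp h2).eventually (gt_mem_nhds (by positivity : 0 < c / 2))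
  obtain ⟨m₂, hm⟩ := eventually_atTop.1 h4
  refine ⟨m₂, fun m hm' => ?_⟩
  have h5 := hm m hm'
  simp only [Function.comp_apply] at h5
  have hN1 := one_le_Nm (q := q) m
  have hN0 : 0 < Nm q m := by linarith
  have hd : δ' - δ ≠ 0 := by linarith
  have e1 : ((Nm q m) ^ (2 * (δ' - δ))) ^ ((1 + δ') / (2 * (δ' - δ))) = (Nm q m) ^ (1 + δ') := by
    rw [← Real.rpow_mul hN0.le]
    congr 1
    field_simp
  have e2 : (Nm q m) ^ (2 * (δ' - δ)) = ((Nm q m) ^ (δ' - δ)) ^ 2 := by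
    rw [← Real.rpow_natCast, ← Real.rpow_mul hN0.le]
    congr 1
    push_cast; ring
  rw [e1, e2] at h5
  have e3 : -(π * (c₃ * (Nm q m) ^ (δ' - δ)) ^ 2) =
      -(π * c₃ ^ 2) * ((Nm q m) ^ (δ' - δ)) ^ 2 := by ring
  rw [e3]
  exact h5

/-- the fixed parameters -/
theorem main_fixed (q s s' A : ℕ) (hs : s' ≤ s) {δ : ℝ} (hδ : 0 ≤ δ)
    (h : rho q ^ (s + 1) + rho q ^ (s' + 1) + δ < 1) :
    ∀ᵐ α : ℝ, 0 ≤ α → α ≤ A → ∃ y₀ : ℝ, ∀ y ≥ y₀, ∃ l₁ l₂ l₃ l₄ : List ℕ,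
      l₁.length = s + 1 ∧ l₂.length = s + 1 ∧ l₃.length = s' + 1 ∧ l₄.length = s' + 1 ∧
      |((val q l₁ : ℝ) + val q l₂) + α * ((val q l₃ : ℝ) + val q l₄) - y| ≤ y ^ (-δ) := by
  obtain ⟨B₁, hB₁⟩ : ∃ B₁ : ℕ, B₁ = (1 + 2 * A) * (2 ^ (q + 1) + 1) + 2 ^ (q + 1) := ⟨_, rfl⟩
  obtain ⟨Λ, hΛd⟩ : ∃ Λ : ℕ, Λ = 1 + 16 * B₁ := ⟨_, rfl⟩
  have hB1 : 1 ≤ B₁ := by
    have : 1 ≤ 2 ^ (q + 1) := Nat.one_le_two_pow
    omega
  have hB1r : (1 : ℝ) ≤ B₁ := by exact_mod_cast hB1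
  have hΛ : 2 ≤ Λ := by omega
  obtain ⟨c, hc, m₀, hcoarse⟩ := coarse_Im (q := q) (s := s) (s' := s') hB₁ hΛd
  -- the exponents
  obtain ⟨σ, hσ⟩ : ∃ σ : ℝ, σ = rho q ^ (s + 1) + rho q ^ (s' + 1) := ⟨_, rfl⟩
  rw [← hσ] at h
  set δ' : ℝ := (δ + (1 - σ)) / 2 with hδ'
  have hδδ' : δ < δ' := by rw [hδ']; linarith
  have hδ'0 : 0 ≤ δ' := by linarith
  set κ : ℝ := (1 - σ - δ') / 2 with hκ
  have hκ0 : 0 < κ := by rw [hκ, hδ']; linarith
  have hbad := ae_eventually_notMem (tsum_bad (q := q) (s := s) (s' := s') hΛ hs A hδ'0 hκ0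
    (by rw [hκ, hσ]; ring) hc)
  set c₃ : ℝ := ((16 : ℝ) ^ (q + 1) * B₁) ^ (-δ) with hc₃
  have hc₃0 : 0 < c₃ := by positivity
  obtain ⟨m₂, hm₂⟩ := exists_threshold q hδδ' hc hc₃0
  filter_upwards [hbad] with α hα hα0 hαA
  obtain ⟨m₁, hm₁⟩ := eventually_atTop.1 hα
  refine ⟨B₁ * Nm q (m₀ + m₁ + m₂), fun y hy => ?_⟩
  have hbase : (1 : ℝ) < (16 : ℝ) ^ (q + 1) := one_lt_pow₀ (by norm_num) (by omega)
  have hy1 : 1 ≤ y / B₁ := by
    rw [le_div_iff₀ (by linarith), one_mul]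
    have := one_le_Nm (q := q) (m₀ + m₁ + m₂)
    nlinarith
  obtain ⟨m, hm1, hm2⟩ := exists_nat_pow_near hy1 hbase
  have hmge : m₀ + m₁ + m₂ ≤ m := by
    have h1 : ((16 : ℝ) ^ (q + 1)) ^ (m₀ + m₁ + m₂) < ((16 : ℝ) ^ (q + 1)) ^ (m + 1) := by
      refine lt_of_le_of_lt ?_ hm2
      rw [le_div_iff₀ (by linarith), ← Nm_eq, mul_comm]
      exact hy
    have := (pow_lt_pow_iff_right₀ hbase).1 h1
    omega
  have hN1 := one_le_Nm (q := q) m
  have hN0 : 0 < Nm q m := by linarith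
  have hyl : (B₁ : ℝ) * Nm q m ≤ y := by
    rw [← Nm_eq, le_div_iff₀ (by linarith)] at hm1
    linarith
  have hyu : y ≤ (16 : ℝ) ^ (q + 1) * (B₁ : ℝ) * Nm q m := by
    rw [← Nm_eq, Nm_succ, div_lt_iff₀ (by linarith)] at hm2
    nlinarith
  have hy0 : 0 < y := by nlinarith
  have h1 := hcoarse m (by omega) α hα0 hαA y hyl hyu
  have h2 := hm₁ m (by omega)
  set I := Im q Λ s m with hI
  set J := Im q Λ s' m with hJ
  set η : ℝ := (Nm q m) ^ (-δ') with hη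
  set H : ℝ := ((2 : ℝ) ^ m) ^ (4 * q + 2) with hH
  have hη0 : 0 < η := Real.rpow_pos_of_pos hN0 _
  have hη1 : η ≤ 1 := Real.rpow_le_one_of_one_le_of_nonpos hN1 (by linarith)
  have hH1 : (1 : ℝ) ≤ H := one_le_pow₀ (one_le_pow₀ (by norm_num))
  obtain ⟨G, hG⟩ : ∃ G : ℝ, G = (I.card : ℝ) ^ 2 * (J.card : ℝ) ^ 2 / Nm q m := ⟨_, rfl⟩
  rw [← hG] at h1
  have h3 : Y I J (val q) (val q) η H α < c / 2 * G := by
    by_contra hcon
    push Not at hcon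
    apply h2
    refine ⟨by rw [abs_of_nonneg hα0]; exact hαA, ?_⟩
    rw [hG] at hcon
    exact hcon
  have h4 := X_sub_le (I := I) (J := J) (a := val q) (b := val q) hη0 (hη1.trans hH1) α y
  have h5 : c / 2 * G < X I J (val q) (val q) η α y := by
    have := (abs_le.1 h4).1
    linarith
  -- extraction
  have h6 : ∃ p ∈ (I ×ˢ J) ×ˢ (I ×ˢ J),
      |zz (val q) (val q) α p.1 + zz (val q) (val q) α p.2 - y| ≤ y ^ (-δ) := by
    by_contra hcon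
    push Not at hcon
    have h7 : X I J (val q) (val q) η α y ≤ (I.card : ℝ) ^ 2 * (J.card : ℝ) ^ 2 *
        (η⁻¹ * Real.exp (-(π * (c₃ * (Nm q m) ^ (δ' - δ)) ^ 2))) := by
      unfold X
      calc ∑ p ∈ (I ×ˢ J) ×ˢ (I ×ˢ J),
            g η (zz (val q) (val q) α p.1 + zz (val q) (val q) α p.2 - y)
          ≤ ∑ _p ∈ (I ×ˢ J) ×ˢ (I ×ˢ J),
            (η⁻¹ * Real.exp (-(π * (c₃ * (Nm q m) ^ (δ' - δ)) ^ 2))) := by
            refine sum_le_sum fun p hp => ?_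
            unfold g
            refine mul_le_mul_of_nonneg_left ?_ (inv_pos.2 hη0).le
            apply Real.exp_le_exp.2
            have h8 := hcon p hp
            obtain ⟨D, hD⟩ : ∃ D : ℝ, D = zz (val q) (val q) α p.1 +
              zz (val q) (val q) α p.2 - y := ⟨_, rfl⟩
            rw [← hD] at h8 ⊢
            have h9 : c₃ * (Nm q m) ^ (-δ) ≤ y ^ (-δ) := by
              rw [hc₃, ← Real.mul_rpow (by positivity) hN0.le]
              exact Real.rpow_le_rpow_of_nonpos hy0 hyu (by linarith)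
            have h10 : c₃ * (Nm q m) ^ (δ' - δ) = c₃ * (Nm q m) ^ (-δ) / η := by
              rw [hη, mul_div_assoc, ← Real.rpow_sub hN0]
              congr 2; ring
            have h11 : (c₃ * (Nm q m) ^ (δ' - δ)) ^ 2 ≤ D ^ 2 / η ^ 2 := by
              rw [h10, div_pow, ← sq_abs D]
              have : c₃ * (Nm q m) ^ (-δ) ≤ |D| := by linarith
              gcongr
            have h12 := mul_le_mul_of_nonneg_left h11 Real.pi_pos.le
            have h13 : π * (D ^ 2 / η ^ 2) = π * D ^ 2 / η ^ 2 := by ring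
            linarith
        _ = _ := by
            rw [sum_const, nsmul_eq_mul, card_product, card_product]
            push_cast
            ring
    have h8 := hm₂ m (by omega)
    have h9 : (I.card : ℝ) ^ 2 * (J.card : ℝ) ^ 2 *
        (η⁻¹ * Real.exp (-(π * (c₃ * (Nm q m) ^ (δ' - δ)) ^ 2))) =
        G * ((Nm q m) ^ (1 + δ') * Real.exp (-(π * (c₃ * (Nm q m) ^ (δ' - δ)) ^ 2))) := by
      have : η⁻¹ = (Nm q m) ^ δ' := by rw [hη, Real.rpow_neg hN0.le, inv_inv]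
      rw [this, Real.rpow_add hN0, Real.rpow_one, hG]
      field_simp
    have hG0 : 0 < G := by
      have := card_pos_Im (q := q) (s := s) hΛ m
      have := card_pos_Im (q := q) (s := s') hΛ m
      rw [hG]
      positivity
    have h10 := mul_lt_mul_of_pos_left h8 hG0
    linarith
  obtain ⟨p, hp, hp2⟩ := h6
  rw [mem_product, mem_product, mem_product] at hp
  refine ⟨p.1.1, p.2.1, p.1.2, p.2.2, length_of_mem hp.1.1, length_of_mem hp.2.1,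
    length_of_mem hp.1.2, length_of_mem hp.2.2, ?_⟩
  have e : ((val q p.1.1 : ℝ) + val q p.2.1) + α * ((val q p.1.2 : ℝ) + val q p.2.2) - y =
      zz (val q) (val q) α p.1 + zz (val q) (val q) α p.2 - y := by unfold zz; ring
  rw [e]
  exact hp2

end Pool.Agent.V7H21.MW
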