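import Mathlib

/-!
Gaussian kernels: Fourier representation, average over the coefficient, and a positive definiteness
inequality.
-/

set_option autoImplicit false

namespace Pool.Agent.V7H21.MW

open MeasureTheory Finset
open scoped Real

/-- the Gaussian kernel of width `σ` -/
noncomputable def g (σ x : ℝ) : ℝ := σ⁻¹ * Real.exp (-(π * x ^ 2 / σ ^ 2))

lemma g_pos {σ : ℝ} (hσ : 0 < σ) (x : ℝ) : 0 < g σ x := by
  unfold g; positivity

lemma g_le {σ : ℝ} (hσ : 0 < σ) (x : ℝ) : g σ x ≤ σ⁻¹ := by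
  unfold g
  have h1 : Real.exp (-(π * x ^ 2 / σ ^ 2)) ≤ 1 := by
    rw [Real.exp_le_one_iff]
    have : 0 ≤ π * x ^ 2 / σ ^ 2 := by positivity
    linarith
  have h2 : 0 < σ⁻¹ := inv_pos.2 hσ
  nlinarith

lemma integrable_gauss {b : ℝ} (hb : 0 < b) (x : ℝ) :
    Integrable (fun t : ℝ => Real.exp (-(b * t ^ 2)) * Real.cos (x * t)) := by
  have h1 : Integrable (fun t : ℝ => Real.exp (-b * t ^ 2)) := integrable_exp_neg_mul_sq hb
  have h2 : Integrable (fun t : ℝ => Real.cos (x * t) * Real.exp (-b * t ^ 2)) := by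
    refine h1.bdd_mul (c := 1) (by fun_prop) ?_
    refine Filter.Eventually.of_forall fun t => ?_
    rw [Real.norm_eq_abs]
    exact Real.abs_cos_le_one _
  refine h2.congr (Filter.Eventually.of_forall fun t => ?_)
  simp only [neg_mul]
  ring

lemma fourier_g {σ : ℝ} (hσ : 0 < σ) (x : ℝ) :
    ∫ t : ℝ, Real.exp (-(π * σ ^ 2 * t ^ 2)) * Real.cos (2 * π * x * t) = g σ x := by
  have hb : 0 < ((π * σ ^ 2 : ℝ) : ℂ).re := by
    rw [Complex.ofReal_re]; positivity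
  have h := fourierIntegral_gaussian hb ((2 * π * x : ℝ) : ℂ)
  have hi : Integrable (fun t : ℝ => Complex.exp (Complex.I * ((2 * π * x : ℝ) : ℂ) * t) *
      Complex.exp (-((π * σ ^ 2 : ℝ) : ℂ) * t ^ 2)) := by
    have h3 := integrable_cexp_quadratic hb (Complex.I * ((2 * π * x : ℝ) : ℂ)) 0
    refine h3.congr (Filter.Eventually.of_forall fun t => ?_)
    simp only
    rw [← Complex.exp_add]
    congr 1
    ring
  have h1 : (∫ t : ℝ, Complex.exp (Complex.I * ((2 * π * x : ℝ) : ℂ) * t) *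
      Complex.exp (-((π * σ ^ 2 : ℝ) : ℂ) * t ^ 2)).re =
      ∫ t : ℝ, Real.exp (-(π * σ ^ 2 * t ^ 2)) * Real.cos (2 * π * x * t) := by
    rw [← RCLike.re_eq_complex_re, ← integral_re hi]
    refine integral_congr_ae (Filter.Eventually.of_forall fun t => ?_)
    simp only
    rw [RCLike.re_eq_complex_re]
    have e1 : Complex.I * ((2 * π * x : ℝ) : ℂ) * t = ((2 * π * x * t : ℝ) : ℂ) * Complex.I := by
      push_cast; ring
    have e2 : -((π * σ ^ 2 : ℝ) : ℂ) * t ^ 2 = ((-(π * σ ^ 2 * t ^ 2) : ℝ) : ℂ) := by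
      push_cast; ring
    rw [e1, e2, Complex.mul_re, Complex.exp_ofReal_mul_I_re, Complex.exp_ofReal_re,
      Complex.exp_ofReal_im]
    ring
  rw [← h1, h]
  have e3 : ((π : ℂ) / ((π * σ ^ 2 : ℝ) : ℂ)) = ((σ⁻¹ ^ 2 : ℝ) : ℂ) := by
    push_cast
    have : (π : ℂ) ≠ 0 := Complex.ofReal_ne_zero.2 Real.pi_ne_zero
    have h4 : (σ : ℂ) ≠ 0 := Complex.ofReal_ne_zero.2 hσ.ne'
    field_simp
  have e4 : ((1 : ℂ) / 2) = ((1 / 2 : ℝ) : ℂ) := by push_cast; ring
  rw [e3, e4, ← Complex.ofReal_cpow (by positivity)]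
  have e5 : (σ⁻¹ ^ 2 : ℝ) ^ (1 / 2 : ℝ) = σ⁻¹ := by
    rw [← Real.sqrt_eq_rpow, Real.sqrt_sq (by positivity)]
  rw [e5]
  have e6 : -((2 * π * x : ℝ) : ℂ) ^ 2 / (4 * ((π * σ ^ 2 : ℝ) : ℂ)) =
      ((-(π * x ^ 2 / σ ^ 2) : ℝ) : ℂ) := by
    push_cast
    have : (π : ℂ) ≠ 0 := Complex.ofReal_ne_zero.2 Real.pi_ne_zero
    have h4 : (σ : ℂ) ≠ 0 := Complex.ofReal_ne_zero.2 hσ.ne'
    field_simp
    ring
  rw [e6, ← Complex.ofReal_exp, ← Complex.ofReal_mul, Complex.ofReal_re]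
  rfl

/-- the average over the coefficient `α` with the Gaussian weight -/
lemma average_g {σ : ℝ} (hσ : 0 < σ) (u v : ℝ) :
    ∫ α : ℝ, Real.exp (-(π * α ^ 2)) * g σ (u + α * v) = g (Real.sqrt (σ ^ 2 + v ^ 2)) u := by
  set s := Real.sqrt (σ ^ 2 + v ^ 2) with hs
  have hs2 : s ^ 2 = σ ^ 2 + v ^ 2 := Real.sq_sqrt (by positivity)
  have hs0 : 0 < s := Real.sqrt_pos.2 (by positivity)
  have h1 : ∀ α : ℝ, Real.exp (-(π * α ^ 2)) * g σ (u + α * v) =
      σ⁻¹ * Real.exp (-(π * u ^ 2 / s ^ 2)) *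
        Real.exp (-(π * s ^ 2 / σ ^ 2) * (α + u * v / s ^ 2) ^ 2) := by
    intro α
    unfold g
    rw [mul_left_comm, mul_assoc σ⁻¹, ← Real.exp_add, ← Real.exp_add]
    congr 2
    have h3 : u ^ 2 * v ^ 2 = u ^ 2 * s ^ 2 - u ^ 2 * σ ^ 2 := by rw [hs2]; ring
    have hv : v ^ 2 = s ^ 2 - σ ^ 2 := by rw [hs2]; ring
    field_simp
    ring_nf
    rw [hv]
    ring
  simp_rw [h1]
  rw [integral_const_mul,
    integral_add_right_eq_self (fun x : ℝ => Real.exp (-(π * s ^ 2 / σ ^ 2) * x ^ 2)),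
    integral_gaussian]
  have h2 : Real.sqrt (π / (π * s ^ 2 / σ ^ 2)) = σ / s := by
    rw [show π / (π * s ^ 2 / σ ^ 2) = (σ / s) ^ 2 by
      have := Real.pi_ne_zero
      field_simp]
    exact Real.sqrt_sq (by positivity)
  rw [h2]
  unfold g
  field_simp

lemma integrable_average_g {σ : ℝ} (hσ : 0 < σ) (u v : ℝ) :
    Integrable (fun α : ℝ => Real.exp (-(π * α ^ 2)) * g σ (u + α * v)) := by
  by_contra h
  have h1 := integral_undef h
  rw [average_g hσ] at h1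
  exact (g_pos (Real.sqrt_pos.2 (by positivity)) u).ne' h1

section posdef

variable {ι : Type*}

lemma sum_kernel {η H : ℝ} (hη : 0 < η) (hH : 0 < H) (S : Finset ι) (x : ι → ℝ) :
    ∑ i ∈ S, (g η (x i) - g H (x i)) = ∫ t : ℝ,
      (Real.exp (-(π * η ^ 2 * t ^ 2)) - Real.exp (-(π * H ^ 2 * t ^ 2))) *
        ∑ i ∈ S, Real.cos (2 * π * x i * t) := by
  have h1 : ∀ {σ : ℝ}, 0 < σ → ∀ i, Integrable (fun t : ℝ => Real.exp (-(π * σ ^ 2 * t ^ 2)) *
      Real.cos (2 * π * x i * t)) := fun {σ} hσ i =>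
    integrable_gauss (b := π * σ ^ 2) (by positivity) _
  have h2 : ∀ i, g η (x i) - g H (x i) = ∫ t : ℝ,
      (Real.exp (-(π * η ^ 2 * t ^ 2)) - Real.exp (-(π * H ^ 2 * t ^ 2))) *
        Real.cos (2 * π * x i * t) := by
    intro i
    rw [← fourier_g hη, ← fourier_g hH, ← integral_sub (h1 hη i) (h1 hH i)]
    refine integral_congr_ae (Filter.Eventually.of_forall fun t => ?_)
    simp only
    ring
  simp_rw [h2, mul_sum]
  rw [integral_finset_sum]
  intro i _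
  have h3 := (h1 hη i).sub (h1 hH i)
  refine h3.congr (Filter.Eventually.of_forall fun t => ?_)
  simp only [Pi.sub_apply]
  ring

lemma integrable_kernel {η H : ℝ} (hη : 0 < η) (hH : 0 < H) (S : Finset ι) (x : ι → ℝ) :
    Integrable (fun t : ℝ =>
      (Real.exp (-(π * η ^ 2 * t ^ 2)) - Real.exp (-(π * H ^ 2 * t ^ 2))) *
        ∑ i ∈ S, Real.cos (2 * π * x i * t)) := by
  have h1 : ∀ {σ : ℝ}, 0 < σ → ∀ i, Integrable (fun t : ℝ => Real.exp (-(π * σ ^ 2 * t ^ 2)) *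
      Real.cos (2 * π * x i * t)) := fun {σ} hσ i =>
    integrable_gauss (b := π * σ ^ 2) (by positivity) _
  simp_rw [mul_sum]
  refine integrable_finset_sum _ fun i _ => ?_
  have h3 := (h1 hη i).sub (h1 hH i)
  refine h3.congr (Filter.Eventually.of_forall fun t => ?_)
  simp only [Pi.sub_apply]
  ring

lemma cos_sum_le (I : Finset ι) (θ : ι → ℝ) (φ : ℝ) :
    |∑ p ∈ I ×ˢ I, Real.cos (θ p.1 + θ p.2 - φ)| ≤ ∑ p ∈ I ×ˢ I, Real.cos (θ p.1 - θ p.2) := by
  set C := ∑ i ∈ I, Real.cos (θ i) with hC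
  set D := ∑ i ∈ I, Real.sin (θ i) with hD
  have h1 : ∑ p ∈ I ×ˢ I, Real.cos (θ p.1 + θ p.2 - φ) =
      Real.cos φ * (C * C - D * D) + Real.sin φ * (C * D + D * C) := by
    rw [sum_product, hC, hD]
    simp only [sum_mul_sum]
    rw [← sum_sub_distrib, ← sum_add_distrib, mul_sum, mul_sum, ← sum_add_distrib]
    refine sum_congr rfl fun i _ => ?_
    rw [← sum_sub_distrib, ← sum_add_distrib, mul_sum, mul_sum, ← sum_add_distrib]
    refine sum_congr rfl fun j _ => ?_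
    rw [Real.cos_sub, Real.cos_add, Real.sin_add]
    ring
  have h2 : ∑ p ∈ I ×ˢ I, Real.cos (θ p.1 - θ p.2) = C * C + D * D := by
    rw [sum_product, hC, hD]
    simp only [sum_mul_sum]
    rw [← sum_add_distrib]
    refine sum_congr rfl fun i _ => ?_
    rw [← sum_add_distrib]
    refine sum_congr rfl fun j _ => ?_
    rw [Real.cos_sub]
  rw [h1, h2]
  have h3 := Real.sin_sq_add_cos_sq φ
  have h4 : (Real.cos φ * (C * C - D * D) + Real.sin φ * (C * D + D * C)) ^ 2 ≤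
      (C * C + D * D) ^ 2 := by
    have h5 : (C * C + D * D) ^ 2 - (Real.cos φ * (C * C - D * D) +
        Real.sin φ * (C * D + D * C)) ^ 2 =
        (Real.sin φ * (C * C - D * D) - Real.cos φ * (C * D + D * C)) ^ 2 := by
      have : (C * C + D * D) ^ 2 = ((C * C - D * D) ^ 2 + (C * D + D * C) ^ 2) *
        (Real.sin φ ^ 2 + Real.cos φ ^ 2) := by rw [h3]; ring
      rw [this]; ring
    nlinarith [sq_nonneg (Real.sin φ * (C * C - D * D) - Real.cos φ * (C * D + D * C))]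
  exact abs_le_of_sq_le_sq h4 (by nlinarith [sq_nonneg C, sq_nonneg D])

/-- positive definiteness -/
theorem posdef {η H : ℝ} (hη : 0 < η) (hH : η ≤ H) (I : Finset ι) (z : ι → ℝ) (y : ℝ) :
    |∑ p ∈ I ×ˢ I, (g η (z p.1 + z p.2 - y) - g H (z p.1 + z p.2 - y))| ≤
      ∑ p ∈ I ×ˢ I, (g η (z p.1 - z p.2) - g H (z p.1 - z p.2)) := by
  have hH0 : 0 < H := hη.trans_le hH
  rw [sum_kernel hη hH0 (I ×ˢ I) (fun p => z p.1 + z p.2 - y),
    sum_kernel hη hH0 (I ×ˢ I) (fun p => z p.1 - z p.2)]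
  refine (abs_integral_le_integral_abs).trans ?_
  refine integral_mono_of_nonneg (Filter.Eventually.of_forall fun t => abs_nonneg _)
    (integrable_kernel hη hH0 _ _) (Filter.Eventually.of_forall fun t => ?_)
  simp only
  have hw : 0 ≤ Real.exp (-(π * η ^ 2 * t ^ 2)) - Real.exp (-(π * H ^ 2 * t ^ 2)) := by
    rw [sub_nonneg, Real.exp_le_exp]
    have : π * η ^ 2 * t ^ 2 ≤ π * H ^ 2 * t ^ 2 := by gcongr
    linarith
  rw [abs_mul, abs_of_nonneg hw]
  refine mul_le_mul_of_nonneg_left ?_ hw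
  have h1 := cos_sum_le I (fun i => 2 * π * z i * t) (2 * π * y * t)
  have e1 : ∑ p ∈ I ×ˢ I, Real.cos (2 * π * (z p.1 + z p.2 - y) * t) =
      ∑ p ∈ I ×ˢ I, Real.cos (2 * π * z p.1 * t + 2 * π * z p.2 * t - 2 * π * y * t) :=
    sum_congr rfl fun p _ => by congr 1; ring
  have e2 : ∑ p ∈ I ×ˢ I, Real.cos (2 * π * (z p.1 - z p.2) * t) =
      ∑ p ∈ I ×ˢ I, Real.cos (2 * π * z p.1 * t - 2 * π * z p.2 * t) :=
    sum_congr rfl fun p _ => by congr 1; ring
  rw [e1, e2]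
  exact h1

end posdef

end Pool.Agent.V7H21.MW
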