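import Pool.Agent.V7H21.MW.Reg

/-!
The levels `M, M^ρ, M^(ρ²), …`, `ρ = 1 - 1/(q+1)`.
-/

set_option autoImplicit false

namespace Pool.Agent.V7H21.MW

open Finset

/-- `1 - 1/(q+1)` -/
noncomputable def rho (q : ℕ) : ℝ := (q : ℝ) / (q + 1)

lemma rho_nonneg (q : ℕ) : 0 ≤ rho q := by unfold rho; positivity

lemma rho_mul (q : ℕ) : rho q * ((q : ℝ) + 1) = q := by
  unfold rho; field_simp

/-- the levels -/
noncomputable def lev (q M i : ℕ) : ℕ := ⌊(M : ℝ) ^ (rho q ^ i)⌋₊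

lemma lev_zero (q M : ℕ) : lev q M 0 = M := by
  unfold lev; simp

variable {q M : ℕ}

lemma one_le_pow (hM : 1 ≤ M) (i : ℕ) : (1 : ℝ) ≤ (M : ℝ) ^ (rho q ^ i) :=
  Real.one_le_rpow (by exact_mod_cast hM) (pow_nonneg (rho_nonneg q) i)

lemma one_le_lev (hM : 1 ≤ M) (i : ℕ) : 1 ≤ lev q M i :=
  Nat.le_floor (by simpa using one_le_pow (q := q) hM i)

lemma lev_le (i : ℕ) : (lev q M i : ℝ) ≤ (M : ℝ) ^ (rho q ^ i) :=
  Nat.floor_le (Real.rpow_nonneg (Nat.cast_nonneg _) _)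

lemma le_lev (hM : 1 ≤ M) (i : ℕ) : (M : ℝ) ^ (rho q ^ i) ≤ 2 * lev q M i := by
  have h1 := Nat.lt_floor_add_one ((M : ℝ) ^ (rho q ^ i))
  have h2 : (1 : ℝ) ≤ lev q M i := by exact_mod_cast one_le_lev hM i
  unfold lev at h2 ⊢
  linarith

lemma pow_pow (i : ℕ) : ((M : ℝ) ^ (rho q ^ (i + 1))) ^ (q + 1) =
    ((M : ℝ) ^ (rho q ^ i)) ^ q := by
  rw [← Real.rpow_natCast ((M : ℝ) ^ (rho q ^ (i + 1))) (q + 1),
    ← Real.rpow_natCast ((M : ℝ) ^ (rho q ^ i)) q, ← Real.rpow_mul (Nat.cast_nonneg _),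
    ← Real.rpow_mul (Nat.cast_nonneg _)]
  congr 1
  rw [pow_succ]
  push_cast
  rw [mul_assoc, rho_mul]

lemma isLev (hM : 1 ≤ M) : Lev (lev q M) q (2 ^ (q + 1)) := by
  refine ⟨fun i => one_le_lev hM i, fun i => ?_, fun i => ?_⟩
  · have h1 : ((lev q M (i + 1) : ℕ) : ℝ) ^ (q + 1) ≤ 2 ^ (q + 1) * (lev q M i : ℝ) ^ q := by
      calc ((lev q M (i + 1) : ℕ) : ℝ) ^ (q + 1) ≤ ((M : ℝ) ^ (rho q ^ (i + 1))) ^ (q + 1) :=
            pow_le_pow_left₀ (by positivity) (lev_le _) _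
        _ = ((M : ℝ) ^ (rho q ^ i)) ^ q := pow_pow i
        _ ≤ (2 * lev q M i) ^ q := pow_le_pow_left₀ (by positivity) (le_lev hM i) _
        _ = 2 ^ q * (lev q M i : ℝ) ^ q := mul_pow _ _ _
        _ ≤ _ := by
            have : (2 : ℝ) ^ q ≤ 2 ^ (q + 1) := pow_le_pow_right₀ (by norm_num) (by omega)
            gcongr
    exact_mod_cast h1
  · have h1 : ((lev q M i : ℕ) : ℝ) ^ q ≤ 2 ^ (q + 1) * (lev q M (i + 1) : ℝ) ^ (q + 1) := by
      calc ((lev q M i : ℕ) : ℝ) ^ q ≤ ((M : ℝ) ^ (rho q ^ i)) ^ q :=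
            pow_le_pow_left₀ (by positivity) (lev_le _) _
        _ = ((M : ℝ) ^ (rho q ^ (i + 1))) ^ (q + 1) := (pow_pow i).symm
        _ ≤ (2 * lev q M (i + 1)) ^ (q + 1) :=
            pow_le_pow_left₀ (by positivity) (le_lev hM (i + 1)) _
        _ = _ := mul_pow _ _ _
    exact_mod_cast h1

lemma exponent (j s : ℕ) : rho q ^ j * ((1 - rho q ^ (s + 1)) * ((q : ℝ) + 1)) =
    rho q ^ j + rho q ^ (j + 1) * ((1 - rho q ^ s) * ((q : ℝ) + 1)) := by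
  have h := rho_mul q
  have e1 : rho q ^ (s + 1) * ((q : ℝ) + 1) = rho q ^ s * q := by
    rw [pow_succ, mul_assoc, h]
  have e2 : rho q ^ (j + 1) * ((1 - rho q ^ s) * ((q : ℝ) + 1)) =
      rho q ^ j * ((1 - rho q ^ s) * q) := by
    rw [pow_succ]
    calc rho q ^ j * rho q * ((1 - rho q ^ s) * ((q : ℝ) + 1)) =
          rho q ^ j * ((1 - rho q ^ s) * (rho q * ((q : ℝ) + 1))) := by ring
      _ = _ := by rw [h]
  rw [e2]
  calc rho q ^ j * ((1 - rho q ^ (s + 1)) * ((q : ℝ) + 1)) =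
        rho q ^ j * (((q : ℝ) + 1) - rho q ^ (s + 1) * ((q : ℝ) + 1)) := by ring
    _ = _ := by rw [e1]; ring

variable {Λ : ℕ}

lemma card_ge (hM : 1 ≤ M) (hΛ : 2 ≤ Λ) (s : ℕ) : ∀ j : ℕ,
    (M : ℝ) ^ (rho q ^ j * ((1 - rho q ^ s) * ((q : ℝ) + 1))) ≤
      2 ^ s * ((lists (lev q M) Λ j s).card : ℝ) := by
  induction s with
  | zero => intro j; simp [lists]
  | succ s ih =>
    intro j
    have hM0 : (0 : ℝ) < M := by exact_mod_cast hM
    rw [exponent, Real.rpow_add hM0, card_lists, Nat.cast_mul,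
      Nat.cast_sub (Nat.le_mul_of_pos_left _ (by omega))]
    push_cast
    have h1 := ih (j + 1)
    have h2 := le_lev (q := q) hM j
    have h3 : (2 : ℝ) ≤ Λ := by exact_mod_cast hΛ
    have h4 : (0 : ℝ) ≤ lev q M j := by positivity
    have h5 : 2 * (lev q M j : ℝ) ≤ 2 * ((Λ : ℝ) * lev q M j - lev q M j) := by nlinarith
    calc (M : ℝ) ^ (rho q ^ j) * (M : ℝ) ^ (rho q ^ (j + 1) * ((1 - rho q ^ s) * ((q : ℝ) + 1)))
        ≤ (2 * ((Λ : ℝ) * lev q M j - lev q M j)) *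
          (2 ^ s * ((lists (lev q M) Λ (j + 1) s).card : ℝ)) :=
          mul_le_mul (h2.trans h5) h1 (by positivity) (by nlinarith)
      _ = _ := by ring

lemma card_le (hM : 1 ≤ M) (hΛ : 1 ≤ Λ) (s : ℕ) : ∀ j : ℕ,
    ((lists (lev q M) Λ j s).card : ℝ) ≤
      (Λ : ℝ) ^ s * (M : ℝ) ^ (rho q ^ j * ((1 - rho q ^ s) * ((q : ℝ) + 1))) := by
  induction s with
  | zero => intro j; simp [lists]
  | succ s ih =>
    intro j
    have hM0 : (0 : ℝ) < M := by exact_mod_cast hM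
    rw [exponent, Real.rpow_add hM0, card_lists, Nat.cast_mul,
      Nat.cast_sub (Nat.le_mul_of_pos_left _ (by omega))]
    push_cast
    have h1 := ih (j + 1)
    have h2 := lev_le (q := q) (M := M) j
    have h3 : (1 : ℝ) ≤ Λ := by exact_mod_cast hΛ
    have h4 : (0 : ℝ) ≤ lev q M j := by positivity
    have h5 : (Λ : ℝ) * lev q M j - lev q M j ≤ Λ * (M : ℝ) ^ (rho q ^ j) := by nlinarith
    calc ((Λ : ℝ) * lev q M j - lev q M j) * ((lists (lev q M) Λ (j + 1) s).card : ℝ)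
        ≤ (Λ * (M : ℝ) ^ (rho q ^ j)) * ((Λ : ℝ) ^ s *
          (M : ℝ) ^ (rho q ^ (j + 1) * ((1 - rho q ^ s) * ((q : ℝ) + 1)))) :=
          mul_le_mul h5 h1 (by positivity) (by positivity)
      _ = _ := by ring

lemma exponent_zero (s : ℕ) :
    (M : ℝ) ^ (rho q ^ 0 * ((1 - rho q ^ s) * ((q : ℝ) + 1))) =
      ((M : ℝ) ^ (q + 1)) ^ (1 - rho q ^ s) := by
  rw [← Real.rpow_natCast (M : ℝ) (q + 1), ← Real.rpow_mul (Nat.cast_nonneg _)]
  congr 1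
  push_cast
  ring

end Pool.Agent.V7H21.MW
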