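import Pool.Agent.V7H21.MW.Avg

/-!
The set of the bad coefficients.
-/

set_option autoImplicit false

namespace Pool.Agent.V7H21.MW

open MeasureTheory Finset
open scoped Real

variable {ι ι' : Type*} {I : Finset ι} {a : ι → ℕ} {J : Finset ι'} {b : ι' → ℕ} {K N : ℝ}

/-- the number `a_i + α b_j` -/
def zz (a : ι → ℕ) (b : ι' → ℕ) (α : ℝ) (p : ι × ι') : ℝ := (a p.1 : ℝ) + α * b p.2

/-- the difference of the fine and the coarse count at zero -/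
noncomputable def Y (I : Finset ι) (J : Finset ι') (a : ι → ℕ) (b : ι' → ℕ) (η H α : ℝ) : ℝ :=
  ∑ p ∈ (I ×ˢ J) ×ˢ (I ×ˢ J),
    (g η (zz a b α p.1 - zz a b α p.2) - g H (zz a b α p.1 - zz a b α p.2))

/-- the weighted count of the sums `a_i + a_i' + α (b_j + b_j')` near `y` -/
noncomputable def X (I : Finset ι) (J : Finset ι') (a : ι → ℕ) (b : ι' → ℕ) (σ α y : ℝ) : ℝ :=
  ∑ p ∈ (I ×ˢ J) ×ˢ (I ×ˢ J), g σ (zz a b α p.1 + zz a b α p.2 - y)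

lemma X_sub_le {η H : ℝ} (hη : 0 < η) (hH : η ≤ H) (α y : ℝ) :
    |X I J a b η α y - X I J a b H α y| ≤ Y I J a b η H α := by
  have := posdef hη hH (I ×ˢ J) (zz a b α) y
  unfold X Y
  rw [← sum_sub_distrib]
  exact this

lemma Y_nonneg {η H : ℝ} (hη : 0 < η) (hH : η ≤ H) (α : ℝ) : 0 ≤ Y I J a b η H α :=
  (abs_nonneg _).trans (X_sub_le (I := I) (J := J) (a := a) (b := b) hη hH α 0)

lemma term_Y {η H : ℝ} (hη : 0 < η) (hH : η ≤ H) (p : (ι × ι') × (ι × ι')) :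
    Integrable (fun α : ℝ => Real.exp (-(π * α ^ 2)) *
        (g η (zz a b α p.1 - zz a b α p.2) - g H (zz a b α p.1 - zz a b α p.2))) ∧
        ∫ α : ℝ, Real.exp (-(π * α ^ 2)) *
        (g η (zz a b α p.1 - zz a b α p.2) - g H (zz a b α p.1 - zz a b α p.2)) =
        F η H ((a p.1.1 : ℝ) - a p.2.1) ((b p.1.2 : ℝ) - b p.2.2) := by
  have hH0 : 0 < H := hη.trans_le hH
  have i1 := integrable_average_g hη ((a p.1.1 : ℝ) - a p.2.1) ((b p.1.2 : ℝ) - b p.2.2)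
  have i2 := integrable_average_g hH0 ((a p.1.1 : ℝ) - a p.2.1) ((b p.1.2 : ℝ) - b p.2.2)
  have e : ∀ α : ℝ, Real.exp (-(π * α ^ 2)) *
      (g η (zz a b α p.1 - zz a b α p.2) - g H (zz a b α p.1 - zz a b α p.2)) =
      Real.exp (-(π * α ^ 2)) *
        g η (((a p.1.1 : ℝ) - a p.2.1) + α * ((b p.1.2 : ℝ) - b p.2.2)) -
      Real.exp (-(π * α ^ 2)) *
        g H (((a p.1.1 : ℝ) - a p.2.1) + α * ((b p.1.2 : ℝ) - b p.2.2)) := by
    intro α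
    have e : zz a b α p.1 - zz a b α p.2 =
        ((a p.1.1 : ℝ) - a p.2.1) + α * ((b p.1.2 : ℝ) - b p.2.2) := by
      unfold zz; ring
    rw [e]
    ring
  simp_rw [e]
  refine ⟨i1.sub i2, ?_⟩
  rw [integral_sub i1 i2, average_g hη, average_g hH0]
  rfl

lemma integrable_Y {η H : ℝ} (hη : 0 < η) (hH : η ≤ H) :
    Integrable (fun α : ℝ => Real.exp (-(π * α ^ 2)) * Y I J a b η H α) := by
  unfold Y
  simp_rw [mul_sum]
  exact integrable_finsetSum _ fun p _ => (term_Y hη hH p).1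

lemma integral_Y {η H : ℝ} (hη : 0 < η) (hH : η ≤ H) :
    ∫ α : ℝ, Real.exp (-(π * α ^ 2)) * Y I J a b η H α =
      ∑ q ∈ J ×ˢ J, ∑ r ∈ I ×ˢ I, F η H ((a r.1 : ℝ) - a r.2) ((b q.1 : ℝ) - b q.2) := by
  have h1 : ∫ α : ℝ, Real.exp (-(π * α ^ 2)) * Y I J a b η H α =
      ∑ p ∈ (I ×ˢ J) ×ˢ (I ×ˢ J), F η H ((a p.1.1 : ℝ) - a p.2.1) ((b p.1.2 : ℝ) - b p.2.2) := by
    unfold Y
    simp_rw [mul_sum]
    rw [integral_finsetSum _ fun p _ => (term_Y hη hH p).1]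
    exact sum_congr rfl fun p _ => (term_Y hη hH p).2
  rw [h1]
  simp only [sum_product]
  -- `i j i' j'` to `j j' i i'`
  calc ∑ i ∈ I, ∑ j ∈ J, ∑ i' ∈ I, ∑ j' ∈ J,
        F η H ((a i : ℝ) - a i') ((b j : ℝ) - b j')
      = ∑ j ∈ J, ∑ i ∈ I, ∑ i' ∈ I, ∑ j' ∈ J,
        F η H ((a i : ℝ) - a i') ((b j : ℝ) - b j') := sum_comm
    _ = ∑ j ∈ J, ∑ i ∈ I, ∑ j' ∈ J, ∑ i' ∈ I,
        F η H ((a i : ℝ) - a i') ((b j : ℝ) - b j') :=
        sum_congr rfl fun j _ => sum_congr rfl fun i _ => sum_comm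
    _ = ∑ j ∈ J, ∑ j' ∈ J, ∑ i ∈ I, ∑ i' ∈ I,
        F η H ((a i : ℝ) - a i') ((b j : ℝ) - b j') :=
        sum_congr rfl fun j _ => sum_comm

/-- Markov's inequality -/
lemma measure_bad {η H A t : ℝ} (hη : 0 < η) (hH : η ≤ H) (ht : 0 < t) :
    volume {α : ℝ | |α| ≤ A ∧ t ≤ Y I J a b η H α} ≤ ENNReal.ofReal (Real.exp (π * A ^ 2) *
      (∑ q ∈ J ×ˢ J, ∑ r ∈ I ×ˢ I, F η H ((a r.1 : ℝ) - a r.2) ((b q.1 : ℝ) - b q.2)) / t) := by
  set S := ∑ q ∈ J ×ˢ J, ∑ r ∈ I ×ˢ I, F η H ((a r.1 : ℝ) - a r.2) ((b q.1 : ℝ) - b q.2) with hS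
  set f : ℝ → ℝ := fun α => Real.exp (-(π * α ^ 2)) * Y I J a b η H α with hf
  set ε : ℝ := Real.exp (-(π * A ^ 2)) * t with hε
  have hε0 : 0 < ε := by positivity
  have hf0 : ∀ α, 0 ≤ f α := fun α => mul_nonneg (Real.exp_pos _).le (Y_nonneg hη hH α)
  have hfi : Integrable f := integrable_Y hη hH
  have h1 := mul_meas_ge_le_integral_of_nonneg (μ := volume) (f := f)
    (Filter.Eventually.of_forall hf0) hfi ε
  rw [integral_Y hη hH, ← hS] at h1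
  have hfin : volume {x | ε ≤ f x} ≠ ⊤ := by
    have h2 := hfi.measure_norm_ge_lt_top hε0
    have h3 : {x | ε ≤ f x} = {x | ε ≤ ‖f x‖} := by
      ext x
      simp only [Set.mem_ofPred_eq]
      rw [Real.norm_eq_abs, abs_of_nonneg (hf0 x)]
    rw [h3]
    exact h2.ne
  have hsub : {α : ℝ | |α| ≤ A ∧ t ≤ Y I J a b η H α} ⊆ {x | ε ≤ f x} := by
    intro α hα
    simp only [Set.mem_ofPred_eq] at hα ⊢
    have h4 : α ^ 2 ≤ A ^ 2 := by
      rw [← sq_abs]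
      exact pow_le_pow_left₀ (abs_nonneg _) hα.1 2
    have h5 : Real.exp (-(π * A ^ 2)) ≤ Real.exp (-(π * α ^ 2)) := by
      apply Real.exp_le_exp.2
      have := Real.pi_pos
      nlinarith
    rw [hε, hf]
    exact mul_le_mul h5 hα.2 ht.le (Real.exp_pos _).le
  refine (measure_mono hsub).trans ?_
  rw [← ENNReal.ofReal_toReal hfin]
  apply ENNReal.ofReal_le_ofReal
  have h6 : (volume {x | ε ≤ f x}).toReal ≤ S / ε := by
    rw [le_div_iff₀ hε0, mul_comm]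
    exact h1
  refine h6.trans (le_of_eq ?_)
  rw [hε, Real.exp_neg]
  field_simp

end Pool.Agent.V7H21.MW
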