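import Pool.Agent.V7H21.MW.Reg
import Pool.Agent.V7H21.MW.Meas

/-!
The lower bound for the coarse count.
-/

set_option autoImplicit false

namespace Pool.Agent.V7H21.MW

open MeasureTheory Finset
open scoped Real

lemma pow_sub_le (q : ℕ) {x r : ℝ} (hr : 0 ≤ r) (hx : r ≤ x) :
    x ^ (q + 1) - r ^ (q + 1) ≤ (q + 1) * x ^ q * (x - r) := by
  induction q with
  | zero => simp
  | succ q ih =>
    have h1 : r ^ (q + 1) ≤ x ^ (q + 1) := pow_le_pow_left₀ hr hx _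
    have h2 : 0 ≤ x := hr.trans hx
    have h3 := mul_le_mul_of_nonneg_left ih h2
    have h4 := mul_le_mul_of_nonneg_right h1 (sub_nonneg.2 hx)
    have e1 : x ^ (q + 1 + 1) - r ^ (q + 1 + 1) =
        x * (x ^ (q + 1) - r ^ (q + 1)) + r ^ (q + 1) * (x - r) := by ring
    have e2 : ((q + 1 : ℕ) + 1 : ℝ) * x ^ (q + 1) * (x - r) =
        x * (((q : ℝ) + 1) * x ^ q * (x - r)) + x ^ (q + 1) * (x - r) := by
      push_cast; ring
    rw [e1, e2]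
    linarith

/-- many integers whose power is near `z` -/
lemma near_card {q M Λ : ℕ} {z w : ℝ} (hz1 : ((2 * M : ℕ) : ℝ) ^ (q + 1) ≤ z)
    (hz2 : z ≤ (((Λ - 1) * M : ℕ) : ℝ) ^ (q + 1)) (hΛ : 1 ≤ Λ) (hw1 : 1 ≤ w) (hw2 : w ≤ M)
    (hM : 1 ≤ M) :
    ∃ S : Finset ℕ, S ⊆ Ioc M (Λ * M) ∧ w / 2 ≤ (S.card : ℝ) ∧
      ∀ x ∈ S, |(x : ℝ) ^ (q + 1) - z| ≤ (q + 1) * ((Λ * M : ℕ) : ℝ) ^ q * w := by
  have hM0 : (0 : ℝ) < M := by exact_mod_cast hM
  have hz0 : 0 ≤ z := le_trans (by positivity) hz1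
  set r : ℝ := z ^ (((q + 1 : ℕ) : ℝ)⁻¹) with hr
  have hr0 : 0 ≤ r := Real.rpow_nonneg hz0 _
  have hrz : r ^ (q + 1) = z := Real.rpow_inv_natCast_pow hz0 (by omega)
  have h1 : ((2 * M : ℕ) : ℝ) ≤ r := by
    by_contra h
    push Not at h
    have := pow_lt_pow_left₀ h hr0 (n := q + 1) (by omega)
    rw [hrz] at this
    linarith
  have h2 : r ≤ (((Λ - 1) * M : ℕ) : ℝ) := by
    by_contra h
    push Not at h
    have := pow_lt_pow_left₀ h (by positivity) (n := q + 1) (by omega)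
    rw [hrz] at this
    linarith
  refine ⟨Ioc ⌊r⌋₊ ⌊r + w⌋₊, ?_, ?_, ?_⟩
  · intro x hx
    rw [mem_Ioc] at hx ⊢
    constructor
    · have : 2 * M ≤ ⌊r⌋₊ := Nat.le_floor h1
      omega
    · have h3 : (x : ℝ) ≤ r + w := by
        have := Nat.floor_le (show 0 ≤ r + w by linarith)
        have h4 : (x : ℝ) ≤ ⌊r + w⌋₊ := by exact_mod_cast hx.2
        linarith
      have h5 : (x : ℝ) ≤ ((Λ * M : ℕ) : ℝ) := by
        have e : ((Λ * M : ℕ) : ℝ) = (((Λ - 1) * M : ℕ) : ℝ) + M := by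
          have : Λ * M = (Λ - 1) * M + M := by
            obtain ⟨c, rfl⟩ := Nat.exists_eq_add_of_le hΛ
            simp; ring
          rw [this]; push_cast; ring
        linarith
      exact_mod_cast h5
  · rw [Nat.card_Ioc]
    have h3 : ⌊r⌋₊ + ⌊w⌋₊ ≤ ⌊r + w⌋₊ := Nat.le_floor (by
      push_cast
      have e1 := Nat.floor_le hr0
      have e2 := Nat.floor_le (show 0 ≤ w by linarith)
      linarith)
    have h4 : ⌊w⌋₊ ≤ ⌊r + w⌋₊ - ⌊r⌋₊ := by omega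
    have h5 : w / 2 ≤ (⌊w⌋₊ : ℝ) := by
      have e1 := Nat.lt_floor_add_one w
      have e2 : (1 : ℝ) ≤ ⌊w⌋₊ := by exact_mod_cast (Nat.le_floor (by simpa using hw1) : 1 ≤ ⌊w⌋₊)
      linarith
    have h6 : ((⌊w⌋₊ : ℕ) : ℝ) ≤ ((⌊r + w⌋₊ - ⌊r⌋₊ : ℕ) : ℝ) := by exact_mod_cast h4
    linarith
  · intro x hx
    rw [mem_Ioc] at hx
    have h3 : (x : ℝ) ≤ r + w := by
      have := Nat.floor_le (show 0 ≤ r + w by linarith)
      have h4 : (x : ℝ) ≤ ⌊r + w⌋₊ := by exact_mod_cast hx.2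
      linarith
    have h4 : r < x := (Nat.floor_lt hr0).1 hx.1
    have h5 : (x : ℝ) ≤ ((Λ * M : ℕ) : ℝ) := by
      have e : ((Λ * M : ℕ) : ℝ) = (((Λ - 1) * M : ℕ) : ℝ) + M := by
        have : Λ * M = (Λ - 1) * M + M := by
          obtain ⟨c, rfl⟩ := Nat.exists_eq_add_of_le hΛ
          simp; ring
        rw [this]; push_cast; ring
      linarith
    rw [← hrz, abs_of_nonneg (sub_nonneg.2 (pow_le_pow_left₀ hr0 h4.le _))]
    refine (pow_sub_le q hr0 h4.le).trans ?_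
    have h6 : (x : ℝ) ^ q ≤ ((Λ * M : ℕ) : ℝ) ^ q := pow_le_pow_left₀ (by positivity) h5 _
    have h7 : (x : ℝ) - r ≤ w := by linarith
    have h8 : 0 ≤ (x : ℝ) - r := by linarith
    gcongr

variable {P : ℕ → ℕ} {Λ q c s : ℕ}

open Classical in
/-- many sums near `z` -/
lemma near_lists (hP : Lev P q c) (hΛ : 1 ≤ Λ) {z w H : ℝ}
    (hz1 : ((2 * P 0 : ℕ) : ℝ) ^ (q + 1) ≤ z)
    (hz2 : z ≤ (((Λ - 1) * P 0 : ℕ) : ℝ) ^ (q + 1)) (hw1 : 1 ≤ w) (hw2 : w ≤ P 0)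
    (hH : (q + 1) * ((Λ * P 0 : ℕ) : ℝ) ^ q * w + ((Bd q Λ c s * c * P 0 ^ q : ℕ) : ℝ) ≤ H) :
    w / 2 * ((lists P Λ 1 s).card : ℝ) ≤
      (((lists P Λ 0 (s + 1)).filter fun l => |((val q l : ℕ) : ℝ) - z| ≤ H).card : ℝ) := by
  obtain ⟨S, hS1, hS2, hS3⟩ := near_card hz1 hz2 hΛ hw1 hw2 (hP.one 0)
  have h1 : (((lists P Λ 0 (s + 1)).filter fun l => |((val q l : ℕ) : ℝ) - z| ≤ H).card : ℝ) =
      ∑ x ∈ Ioc (P 0) (Λ * P 0), ∑ l ∈ lists P Λ 1 s,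
        (if |((val q (x :: l) : ℕ) : ℝ) - z| ≤ H then (1 : ℝ) else 0) := by
    rw [card_filter, Nat.cast_sum, sum_lists]
    refine sum_congr rfl fun x _ => sum_congr rfl fun l _ => ?_
    split_ifs <;> simp
  rw [h1]
  have h2 : ∑ x ∈ S, ((lists P Λ 1 s).card : ℝ) ≤
      ∑ x ∈ Ioc (P 0) (Λ * P 0), ∑ l ∈ lists P Λ 1 s,
        (if |((val q (x :: l) : ℕ) : ℝ) - z| ≤ H then (1 : ℝ) else 0) := by
    refine le_trans ?_ (sum_le_sum_of_subset_of_nonneg hS1 fun x _ _ =>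
      sum_nonneg fun l _ => by split_ifs <;> norm_num)
    refine sum_le_sum fun x hx => ?_
    have h3 : ∀ l ∈ lists P Λ 1 s,
        (if |((val q (x :: l) : ℕ) : ℝ) - z| ≤ H then (1 : ℝ) else 0) = 1 := by
      intro l hl
      apply if_pos
      have h4 := hS3 x hx
      have h5 : ((val q l : ℕ) : ℝ) ≤ ((Bd q Λ c s * c * P 0 ^ q : ℕ) : ℝ) := by
        exact_mod_cast val_tail_le hP hl
      have h6 : (0 : ℝ) ≤ ((val q l : ℕ) : ℝ) := by positivity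
      rw [val_cons]
      push_cast
      rw [abs_le] at h4 ⊢
      push_cast at h5 hH h4 ⊢
      constructor <;> linarith [h4.1, h4.2]
    rw [sum_congr rfl h3, sum_const, nsmul_eq_mul, mul_one]
  rw [sum_const, nsmul_eq_mul] at h2
  have h7 : w / 2 * ((lists P Λ 1 s).card : ℝ) ≤ (S.card : ℝ) * ((lists P Λ 1 s).card : ℝ) :=
    mul_le_mul_of_nonneg_right hS2 (by positivity)
  linarith

/-- the lists whose first entry is at most `2 P 0` -/
lemma exists_sub (hP : Lev P q c) (hΛ : 2 ≤ Λ) :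
    ∃ I₀ ⊆ lists P Λ 0 (s + 1), I₀.card = P 0 * (lists P Λ 1 s).card ∧
      ∀ l ∈ I₀, val q l ≤ (2 * P 0) ^ (q + 1) + Bd q Λ c s * c * P 0 ^ q := by
  refine ⟨(Ioc (P 0) (2 * P 0) ×ˢ lists P Λ 1 s).map consEmb, ?_, ?_, ?_⟩
  · simp only [lists]
    apply map_subset_map.2
    apply product_subset_product_left
    exact Ioc_subset_Ioc_right (Nat.mul_le_mul_right _ hΛ)
  · rw [card_map, card_product, Nat.card_Ioc]
    congr 1
    omega
  · intro l hl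
    rw [mem_map] at hl
    obtain ⟨p, hp, rfl⟩ := hl
    rw [mem_product, mem_Ioc] at hp
    rw [consEmb_apply, val_cons]
    have h1 : p.1 ^ (q + 1) ≤ (2 * P 0) ^ (q + 1) := Nat.pow_le_pow_left hp.1.2 _
    have h2 : val q p.2 ≤ Bd q Λ c s * c * P 0 ^ q := val_tail_le hP hp.2
    omega

section

variable {ι ι' : Type*} {I : Finset ι} {a : ι → ℕ} {J : Finset ι'} {b : ι' → ℕ}

open Classical in
/-- the coarse count, from below -/
lemma coarse_lower {I₀ : Finset ι} {J₀ : Finset ι'} (h0 : I₀ ⊆ I) (h0' : J₀ ⊆ J) {H α y R : ℝ}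
    (hH : 0 < H)
    (h : ∀ j ∈ J₀, ∀ i ∈ I₀, ∀ j' ∈ J₀, R ≤ ((I.filter fun i' => |(a i' : ℝ) -
      (y - (a i : ℝ) - α * ((b j : ℝ) + b j'))| ≤ H).card : ℝ)) :
    (J₀.card : ℝ) ^ 2 * I₀.card * (R * (H⁻¹ * Real.exp (-π))) ≤ X I J a b H α y := by
  unfold X
  simp only [sum_product]
  have hg : ∀ x, 0 ≤ g H x := fun x => (g_pos hH x).le
  have e : ∑ i' ∈ I, ∑ j ∈ J, ∑ i ∈ I, ∑ j' ∈ J, g H (zz a b α (i', j) + zz a b α (i, j') - y) =
      ∑ j ∈ J, ∑ i ∈ I, ∑ j' ∈ J, ∑ i' ∈ I, g H (zz a b α (i', j) + zz a b α (i, j') - y) := by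
    rw [sum_comm]
    refine sum_congr rfl fun j _ => ?_
    rw [sum_comm]
    refine sum_congr rfl fun i _ => ?_
    rw [sum_comm]
  rw [e]
  have h1 : ∀ j ∈ J₀, ∀ i ∈ I₀, ∀ j' ∈ J₀, R * (H⁻¹ * Real.exp (-π)) ≤
      ∑ i' ∈ I, g H (zz a b α (i', j) + zz a b α (i, j') - y) := by
    intro j hj i hi j' hj'
    have h2 := h j hj i hi j' hj'
    have h3 : ∑ i' ∈ I.filter (fun i' => |(a i' : ℝ) -
        (y - (a i : ℝ) - α * ((b j : ℝ) + b j'))| ≤ H), H⁻¹ * Real.exp (-π) ≤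
        ∑ i' ∈ I, g H (zz a b α (i', j) + zz a b α (i, j') - y) := by
      refine le_trans ?_ (sum_le_sum_of_subset_of_nonneg (filter_subset (fun i' =>
        |(a i' : ℝ) - (y - (a i : ℝ) - α * ((b j : ℝ) + b j'))| ≤ H) I) fun _ _ _ => hg _)
      refine sum_le_sum fun i' hi' => ?_
      have h4 := (mem_filter.1 hi').2
      unfold g
      refine mul_le_mul_of_nonneg_left ?_ (inv_pos.2 hH).le
      apply Real.exp_le_exp.2
      have h5 : zz a b α (i', j) + zz a b α (i, j') - y =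
          (a i' : ℝ) - (y - (a i : ℝ) - α * ((b j : ℝ) + b j')) := by unfold zz; ring
      rw [h5]
      have h6 : ((a i' : ℝ) - (y - (a i : ℝ) - α * ((b j : ℝ) + b j'))) ^ 2 ≤ H ^ 2 := by
        rw [← sq_abs]
        exact pow_le_pow_left₀ (abs_nonneg _) h4 2
      have h7 : π * ((a i' : ℝ) - (y - (a i : ℝ) - α * ((b j : ℝ) + b j'))) ^ 2 / H ^ 2 ≤ π := by
        rw [div_le_iff₀ (by positivity)]
        exact mul_le_mul_of_nonneg_left h6 Real.pi_pos.le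
      linarith
    rw [sum_const, nsmul_eq_mul] at h3
    refine le_trans ?_ h3
    exact mul_le_mul_of_nonneg_right h2 (by positivity)
  calc (J₀.card : ℝ) ^ 2 * I₀.card * (R * (H⁻¹ * Real.exp (-π)))
      = ∑ _j ∈ J₀, ∑ _i ∈ I₀, ∑ _j' ∈ J₀, R * (H⁻¹ * Real.exp (-π)) := by
        simp only [sum_const, nsmul_eq_mul]; ring
    _ ≤ ∑ j ∈ J₀, ∑ i ∈ I₀, ∑ j' ∈ J₀, ∑ i' ∈ I, g H (zz a b α (i', j) + zz a b α (i, j') - y) :=
        sum_le_sum fun j hj => sum_le_sum fun i hi => sum_le_sum fun j' hj' => h1 j hj i hi j' hj'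
    _ ≤ ∑ j ∈ J, ∑ i ∈ I, ∑ j' ∈ J, ∑ i' ∈ I, g H (zz a b α (i', j) + zz a b α (i, j') - y) := by
        refine le_trans ?_ (sum_le_sum_of_subset_of_nonneg h0' fun _ _ _ =>
          sum_nonneg fun _ _ => sum_nonneg fun _ _ => sum_nonneg fun _ _ => hg _)
        refine sum_le_sum fun j _ => ?_
        refine le_trans ?_ (sum_le_sum_of_subset_of_nonneg h0 fun _ _ _ =>
          sum_nonneg fun _ _ => sum_nonneg fun _ _ => hg _)
        refine sum_le_sum fun i _ => ?_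
        exact sum_le_sum_of_subset_of_nonneg h0' fun _ _ _ => sum_nonneg fun _ _ => hg _

end

end Pool.Agent.V7H21.MW
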