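import Mathlib

/-!
The size of the average at one scale.
-/

set_option autoImplicit false

namespace Pool.Agent.V7H21.MW

lemma scale_bound {q : ℕ} {W n n' N K c₀ C₀ ε ε' δ κ η : ℝ} (hW : 1 ≤ W)
    (hN : N = W ^ (4 * q + 4))
    (hη : η = N ^ (-δ)) (hδ : 0 ≤ δ) (hεε : ε ≤ ε') (hκ0 : 0 ≤ κ)
    (hκ : 2 * κ = 1 - ε - ε' - δ)
    (hc : 0 < c₀) (hC : 0 ≤ C₀) (hK : 0 ≤ K) (hn1 : c₀ * N ^ (1 - ε) ≤ n) (hn2 : n ≤ C₀ * N)
    (hn1' : c₀ * N ^ (1 - ε') ≤ n') (hn3 : c₀ * W ≤ n') :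
    2 * n * n' * K ^ 2 / η * (n / N + 1) +
      4 * n ^ 2 * n' * K ^ 2 / N * (n' * W ^ (4 * q + 3) / N + 1) +
      2 * n * n' * K ^ 2 * (n' * W ^ (2 * q + 2) / N + 1) +
      2 * n * n' ^ 2 * K / W ^ (2 * q + 2) +
      n ^ 2 * n' ^ 2 * ((W ^ (4 * q + 2)) ^ 2 / (2 * (W ^ (4 * q + 3)) ^ 3)) ≤
    (2 * K ^ 2 * (C₀ + 1) / c₀ ^ 2 + 4 * K ^ 2 * (1 + 1 / c₀) + 2 * K ^ 2 * (1 / c₀ + 1 / c₀ ^ 2) +
      2 * K / c₀ + 1) * (n ^ 2 * n' ^ 2 / N) * (W⁻¹ + N ^ (-κ)) := by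
  have hW0 : 0 < W := by linarith
  have hN1 : 1 ≤ N := by rw [hN]; exact one_le_pow₀ hW
  have hN0 : 0 < N := by linarith
  have hn0 : 0 < n := lt_of_lt_of_le (by positivity) hn1
  have hn0' : 0 < n' := lt_of_lt_of_le (by positivity) hn1'
  set ν : ℝ := N ^ (-κ) with hν
  have hν0 : 0 < ν := Real.rpow_pos_of_pos hN0 _
  have hνN : ν * N ^ κ = 1 := by
    rw [hν, ← Real.rpow_add hN0]; simp
  have hNκ : 1 ≤ N ^ κ := Real.one_le_rpow hN1 hκ0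
  set T : ℝ := W ^ (2 * q + 2) with hT
  have hT0 : 0 < T := by positivity
  have hTT : T * T = N := by rw [hT, hN, ← pow_add]; congr 1; ring
  have hThalf : T = N ^ (1 / 2 : ℝ) := by
    rw [← Real.sqrt_eq_rpow, ← hTT, Real.sqrt_mul_self hT0.le]
  -- the basic inequalities
  have hb : T * N ^ κ ≤ n / c₀ := by
    rw [hThalf, ← Real.rpow_add hN0, le_div_iff₀ hc, mul_comm]
    refine le_trans ?_ hn1
    refine mul_le_mul_of_nonneg_left ?_ hc.le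
    exact Real.rpow_le_rpow_of_exponent_le hN1 (by linarith)
  have ha : N * N ^ δ * N ^ κ ≤ n * n' / c₀ ^ 2 := by
    rw [le_div_iff₀ (by positivity)]
    have h1 : (c₀ * N ^ (1 - ε)) * (c₀ * N ^ (1 - ε')) ≤ n * n' :=
      mul_le_mul hn1 hn1' (by positivity) hn0.le
    refine le_trans ?_ h1
    have h2 : N * N ^ δ * N ^ κ ≤ N ^ (1 - ε) * N ^ (1 - ε') := by
      have e1 : N * N ^ δ * N ^ κ = N ^ (1 + δ + κ) := by
        rw [Real.rpow_add hN0, Real.rpow_add hN0, Real.rpow_one]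
      rw [e1, ← Real.rpow_add hN0]
      exact Real.rpow_le_rpow_of_exponent_le hN1 (by linarith)
    calc N * N ^ δ * N ^ κ * c₀ ^ 2 ≤ (N ^ (1 - ε) * N ^ (1 - ε')) * c₀ ^ 2 :=
          mul_le_mul_of_nonneg_right h2 (by positivity)
      _ = _ := by ring
  have hNδ : 1 ≤ N ^ δ := Real.one_le_rpow hN1 hδ
  have hcc : N * N ^ κ ≤ n * n' / c₀ ^ 2 := by
    refine le_trans ?_ ha
    have : N * N ^ κ * 1 ≤ N * N ^ κ * N ^ δ := mul_le_mul_of_nonneg_left hNδ (by positivity)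
    linarith
  have hd : N * N ^ κ ≤ n * T / c₀ := by
    calc N * N ^ κ = T * (T * N ^ κ) := by rw [← hTT]; ring
      _ ≤ T * (n / c₀) := mul_le_mul_of_nonneg_left hb hT0.le
      _ = n * T / c₀ := by ring
  have he : W ≤ n' / c₀ := by
    rw [le_div_iff₀ hc]; linarith
  set G : ℝ := n ^ 2 * n' ^ 2 / N with hG
  have hG0 : 0 < G := by positivity
  have hη' : 1 / η = N ^ δ := by rw [hη, Real.rpow_neg hN0.le]; simp
  -- term 1
  have t1 : 2 * n * n' * K ^ 2 / η * (n / N + 1) ≤ 2 * K ^ 2 * (C₀ + 1) / c₀ ^ 2 * G * ν := by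
    have h1 : n / N + 1 ≤ C₀ + 1 := by
      have : n / N ≤ C₀ := by rw [div_le_iff₀ hN0]; exact hn2
      linarith
    have h2 : n * n' * N ^ δ ≤ G * ν / c₀ ^ 2 := by
      have e : G * ν / c₀ ^ 2 = n * n' * (n * n' / c₀ ^ 2) * ν / N := by rw [hG]; field_simp
      rw [e, le_div_iff₀ hN0]
      calc n * n' * N ^ δ * N = n * n' * (N * N ^ δ * N ^ κ) * ν := by
            calc n * n' * N ^ δ * N = n * n' * N ^ δ * N * (ν * N ^ κ) := by rw [hνN, mul_one]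
              _ = _ := by ring
        _ ≤ n * n' * (n * n' / c₀ ^ 2) * ν := by gcongr
    calc 2 * n * n' * K ^ 2 / η * (n / N + 1) = 2 * K ^ 2 * (n * n' * (1 / η)) * (n / N + 1) := by
          ring
      _ = 2 * K ^ 2 * (n * n' * N ^ δ) * (n / N + 1) := by rw [hη']
      _ ≤ 2 * K ^ 2 * (G * ν / c₀ ^ 2) * (C₀ + 1) := by gcongr
      _ = _ := by ring
  have hVN : W ^ (4 * q + 3) / N = W⁻¹ := by
    rw [hN, show W ^ (4 * q + 4) = W ^ (4 * q + 3) * W by rw [← pow_succ]]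
    field_simp
  have t2 : 4 * n ^ 2 * n' * K ^ 2 / N * (n' * W ^ (4 * q + 3) / N + 1) ≤
      4 * K ^ 2 * (1 + 1 / c₀) * G * W⁻¹ := by
    have h1 : n' * W ^ (4 * q + 3) / N = n' * W⁻¹ := by rw [← hVN]; ring
    rw [h1]
    have h2 : (1 : ℝ) ≤ n' * W⁻¹ / c₀ := by
      rw [le_div_iff₀ hc, one_mul, ← div_eq_mul_inv, le_div_iff₀ hW0]
      rw [le_div_iff₀ hc] at he
      linarith
    calc 4 * n ^ 2 * n' * K ^ 2 / N * (n' * W⁻¹ + 1) ≤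
          4 * n ^ 2 * n' * K ^ 2 / N * (n' * W⁻¹ + n' * W⁻¹ / c₀) := by gcongr
      _ = _ := by rw [hG]; field_simp
  have t3 : 2 * n * n' * K ^ 2 * (n' * T / N + 1) ≤ 2 * K ^ 2 * (1 / c₀ + 1 / c₀ ^ 2) * G * ν := by
    have h1 : n' * T / N ≤ n * n' / N / c₀ * ν := by
      have h2 : T ≤ n / c₀ * ν := by
        calc T = T * N ^ κ * ν := by rw [mul_assoc, mul_comm (N ^ κ), hνN, mul_one]
          _ ≤ n / c₀ * ν := mul_le_mul_of_nonneg_right hb hν0.le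
      calc n' * T / N ≤ n' * (n / c₀ * ν) / N := by gcongr
        _ = _ := by ring
    have h2 : (1 : ℝ) ≤ n * n' / N / c₀ ^ 2 * ν := by
      have h3 : N ≤ n * n' / c₀ ^ 2 * ν := by
        calc N = N * N ^ κ * ν := by rw [mul_assoc, mul_comm (N ^ κ), hνN, mul_one]
          _ ≤ _ := mul_le_mul_of_nonneg_right hcc hν0.le
      have h4 : n * n' / N / c₀ ^ 2 * ν = (n * n' / c₀ ^ 2 * ν) / N := by ring
      rw [h4, le_div_iff₀ hN0, one_mul]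
      exact h3
    calc 2 * n * n' * K ^ 2 * (n' * T / N + 1) ≤
          2 * n * n' * K ^ 2 * (n * n' / N / c₀ * ν + n * n' / N / c₀ ^ 2 * ν) := by gcongr
      _ = _ := by rw [hG]; ring
  have t4 : 2 * n * n' ^ 2 * K / T ≤ 2 * K / c₀ * G * ν := by
    have h1 : n * n' ^ 2 / T ≤ G * ν / c₀ := by
      rw [div_le_iff₀ hT0, hG]
      have h2 : N ≤ n * T / c₀ * ν := by
        calc N = N * N ^ κ * ν := by rw [mul_assoc, mul_comm (N ^ κ), hνN, mul_one]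
          _ ≤ _ := mul_le_mul_of_nonneg_right hd hν0.le
      have h3 : n ^ 2 * n' ^ 2 / N * ν / c₀ * T = n * n' ^ 2 * (n * T / c₀ * ν) / N := by ring
      rw [h3, le_div_iff₀ hN0]
      exact mul_le_mul_of_nonneg_left h2 (by positivity)
    calc 2 * n * n' ^ 2 * K / T = 2 * K * (n * n' ^ 2 / T) := by ring
      _ ≤ 2 * K * (G * ν / c₀) := by gcongr
      _ = _ := by ring
  have t5 : n ^ 2 * n' ^ 2 * ((W ^ (4 * q + 2)) ^ 2 / (2 * (W ^ (4 * q + 3)) ^ 3)) ≤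
      1 * G * W⁻¹ := by
    have h1 : (W ^ (4 * q + 2)) ^ 2 / (2 * (W ^ (4 * q + 3)) ^ 3) = 1 / 2 * (W⁻¹ / N) := by
      rw [hN, ← pow_mul, ← pow_mul]
      have e : W ^ ((4 * q + 3) * 3) = W ^ ((4 * q + 2) * 2) * (W ^ (4 * q + 4) * W) := by
        rw [← pow_succ, ← pow_add]; congr 1; ring
      rw [e]
      field_simp
    rw [h1, hG]
    have : n ^ 2 * n' ^ 2 * (1 / 2 * (W⁻¹ / N)) = 1 / 2 * (n ^ 2 * n' ^ 2 / N * W⁻¹) := by ring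
    rw [this]
    have : 0 ≤ n ^ 2 * n' ^ 2 / N * W⁻¹ := by positivity
    linarith
  have hWi : 0 < W⁻¹ := inv_pos.2 hW0
  have p1 : 0 ≤ 2 * K ^ 2 * (C₀ + 1) / c₀ ^ 2 * G * W⁻¹ := by positivity
  have p2 : 0 ≤ 4 * K ^ 2 * (1 + 1 / c₀) * G * ν := by positivity
  have p3 : 0 ≤ 2 * K ^ 2 * (1 / c₀ + 1 / c₀ ^ 2) * G * W⁻¹ := by positivity
  have p4 : 0 ≤ 2 * K / c₀ * G * W⁻¹ := by positivity
  have p5 : 0 ≤ 1 * G * ν := by positivity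
  calc _ ≤ 2 * K ^ 2 * (C₀ + 1) / c₀ ^ 2 * G * ν + 4 * K ^ 2 * (1 + 1 / c₀) * G * W⁻¹ +
        2 * K ^ 2 * (1 / c₀ + 1 / c₀ ^ 2) * G * ν + 2 * K / c₀ * G * ν + 1 * G * W⁻¹ := by
        linarith
    _ ≤ _ := by
        have : (2 * K ^ 2 * (C₀ + 1) / c₀ ^ 2 + 4 * K ^ 2 * (1 + 1 / c₀) +
          2 * K ^ 2 * (1 / c₀ + 1 / c₀ ^ 2) + 2 * K / c₀ + 1) * G * (W⁻¹ + ν) =
          (2 * K ^ 2 * (C₀ + 1) / c₀ ^ 2 * G * W⁻¹ + 2 * K ^ 2 * (C₀ + 1) / c₀ ^ 2 * G * ν) +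
          (4 * K ^ 2 * (1 + 1 / c₀) * G * W⁻¹ + 4 * K ^ 2 * (1 + 1 / c₀) * G * ν) +
          (2 * K ^ 2 * (1 / c₀ + 1 / c₀ ^ 2) * G * W⁻¹ +
            2 * K ^ 2 * (1 / c₀ + 1 / c₀ ^ 2) * G * ν) +
          (2 * K / c₀ * G * W⁻¹ + 2 * K / c₀ * G * ν) + (1 * G * W⁻¹ + 1 * G * ν) := by ring
        rw [this]
        linarith

end Pool.Agent.V7H21.MW
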