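import Pool.Agent.V7H21.MW.Lower
import Pool.Agent.V7H21.MW.Levels
import Pool.Agent.V7H21.MW.Scale

/-!
Almost every coefficient: the values of the sums of powers have small gaps.
-/

set_option autoImplicit false

namespace Pool.Agent.V7H21.MW

open MeasureTheory Finset Filter Topology
open scoped Real

/-- the first level, `16 ^ m` -/
def Mn (m : ℕ) : ℕ := (2 ^ m) ^ 4

/-- the family -/
noncomputable def Im (q Λ s m : ℕ) : Finset (List ℕ) := lists (lev q (Mn m)) Λ 0 (s + 1)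

/-- the scale `Mn m ^ (q+1)` -/
noncomputable def Nm (q m : ℕ) : ℝ := ((2 : ℝ) ^ m) ^ (4 * q + 4)

variable {q Λ s : ℕ}

lemma one_le_Mn (m : ℕ) : 1 ≤ Mn m := Nat.one_le_pow _ _ (by positivity)

lemma Mn_pow (m : ℕ) : ((Mn m : ℕ) : ℝ) ^ (q + 1) = Nm q m := by
  unfold Mn Nm
  push_cast
  rw [← pow_mul]
  congr 1

lemma one_le_Nm (m : ℕ) : 1 ≤ Nm q m := one_le_pow₀ (one_le_pow₀ (by norm_num))

lemma regular_Im (hΛ : 2 ≤ Λ) (m : ℕ) :
    Regular (Im q Λ s m) (val q) (Kc q Λ (2 ^ (q + 1)) (s + 1)) (Nm q m) := by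
  intro z h hh
  have h1 := count_le (isLev (q := q) (one_le_Mn m)) hΛ (s + 1) 0 z h hh
  rw [lev_zero, Mn_pow] at h1
  unfold Im
  convert h1

lemma card_Im_ge (hΛ : 2 ≤ Λ) (m : ℕ) :
    (1 / 2 ^ (s + 1) : ℝ) * (Nm q m) ^ (1 - rho q ^ (s + 1)) ≤ ((Im q Λ s m).card : ℝ) := by
  have h1 := card_ge (q := q) (one_le_Mn m) hΛ (s + 1) 0
  rw [exponent_zero, Mn_pow] at h1
  rw [one_div, inv_mul_le_iff₀ (by positivity)]
  exact h1

lemma card_Im_le (hΛ : 1 ≤ Λ) (m : ℕ) :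
    ((Im q Λ s m).card : ℝ) ≤ (Λ : ℝ) ^ (s + 1) * Nm q m := by
  have h1 := card_le (q := q) (one_le_Mn m) hΛ (s + 1) 0
  rw [exponent_zero, Mn_pow] at h1
  refine h1.trans ?_
  refine mul_le_mul_of_nonneg_left ?_ (by positivity)
  calc (Nm q m) ^ (1 - rho q ^ (s + 1)) ≤ (Nm q m) ^ (1 : ℝ) :=
        Real.rpow_le_rpow_of_exponent_le (one_le_Nm m) (by
          have := pow_nonneg (rho_nonneg q) (s + 1)
          linarith)
    _ = Nm q m := Real.rpow_one _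

lemma le_card_Im (hΛ : 2 ≤ Λ) (m : ℕ) : (2 : ℝ) ^ m ≤ ((Im q Λ s m).card : ℝ) := by
  have h1 := card_ge (q := q) (one_le_Mn m) hΛ s 1
  have h2 : 0 < (lists (lev q (Mn m)) Λ 1 s).card := by
    rcases Nat.eq_zero_or_pos (lists (lev q (Mn m)) Λ 1 s).card with h | h
    · rw [h, Nat.cast_zero, mul_zero] at h1
      have : (0 : ℝ) < ((Mn m : ℕ) : ℝ) ^ (rho q ^ 1 * ((1 - rho q ^ s) * ((q : ℝ) + 1))) :=
        Real.rpow_pos_of_pos (by exact_mod_cast one_le_Mn m) _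
      linarith
    · exact h
  have h3 : Mn m ≤ (Im q Λ s m).card := by
    unfold Im
    rw [card_lists, lev_zero]
    calc Mn m ≤ Λ * Mn m - Mn m := by
          have : 2 * Mn m ≤ Λ * Mn m := Nat.mul_le_mul_right _ hΛ
          omega
      _ ≤ _ := Nat.le_mul_of_pos_right _ h2
  have h4 : (2 : ℝ) ^ m ≤ ((Mn m : ℕ) : ℝ) := by
    unfold Mn
    push_cast
    exact le_self_pow₀ (one_le_pow₀ (by norm_num)) (by norm_num)
  exact h4.trans (by exact_mod_cast h3)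

lemma regular_mono {ι : Type*} {I : Finset ι} {a : ι → ℕ} {K K' N : ℝ} (h : Regular I a K N)
    (hK : K ≤ K') (hN : 0 < N) : Regular I a K' N := by
  intro z t ht
  refine (h z t ht).trans ?_
  have : 0 ≤ (I.card : ℝ) * t / N + 1 := by positivity
  exact mul_le_mul_of_nonneg_right hK this

/-- the bound for the average, in final form -/
lemma total_Im {s' : ℕ} (hΛ : 2 ≤ Λ) (hs : s' ≤ s) {δ κ : ℝ} (hδ : 0 ≤ δ) (hκ0 : 0 ≤ κ)
    (hκ : 2 * κ = 1 - rho q ^ (s + 1) - rho q ^ (s' + 1) - δ) :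
    ∃ C : ℝ, 0 < C ∧ ∀ m : ℕ,
      ∑ p ∈ Im q Λ s' m ×ˢ Im q Λ s' m, ∑ r ∈ Im q Λ s m ×ˢ Im q Λ s m,
        F ((Nm q m) ^ (-δ)) (((2 : ℝ) ^ m) ^ (4 * q + 2)) ((val q r.1 : ℝ) - val q r.2)
          ((val q p.1 : ℝ) - val q p.2) ≤
        C * (((Im q Λ s m).card : ℝ) ^ 2 * ((Im q Λ s' m).card : ℝ) ^ 2 / Nm q m) *
          (((2 : ℝ) ^ m)⁻¹ + (Nm q m) ^ (-κ)) := by
  set K := max (Kc q Λ (2 ^ (q + 1)) (s + 1)) (Kc q Λ (2 ^ (q + 1)) (s' + 1)) with hK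
  have hK1 : 1 ≤ K := (one_le_Kc _ _ _ _).trans (le_max_left _ _)
  set c₀ : ℝ := 1 / 2 ^ (s + 1) with hc₀
  set C₀ : ℝ := (Λ : ℝ) ^ (s + 1) with hC₀
  have hc : 0 < c₀ := by positivity
  have hC : 0 ≤ C₀ := by positivity
  have hc1 : c₀ ≤ 1 := by
    rw [hc₀, div_le_one (by positivity)]
    exact one_le_pow₀ (by norm_num)
  have hcs : c₀ ≤ 1 / 2 ^ (s' + 1) := by
    rw [hc₀]
    apply one_div_le_one_div_of_le (by positivity)
    exact pow_le_pow_right₀ (by norm_num) (by omega)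
  have hrho1 : rho q ≤ 1 := by
    unfold rho
    rw [div_le_one (by positivity)]
    linarith
  refine ⟨2 * K ^ 2 * (C₀ + 1) / c₀ ^ 2 + 4 * K ^ 2 * (1 + 1 / c₀) + 2 * K ^ 2 *
    (1 / c₀ + 1 / c₀ ^ 2) + 2 * K / c₀ + 1, by positivity, fun m => ?_⟩
  have hN1 := one_le_Nm (q := q) m
  have hN0 : 0 < Nm q m := by linarith
  have hW1 : (1 : ℝ) ≤ (2 : ℝ) ^ m := one_le_pow₀ (by norm_num)
  have hη0 : 0 < (Nm q m) ^ (-δ) := Real.rpow_pos_of_pos hN0 _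
  have hη1 : (Nm q m) ^ (-δ) ≤ 1 := Real.rpow_le_one_of_one_le_of_nonpos hN1 (by linarith)
  have hH1 : (1 : ℝ) ≤ ((2 : ℝ) ^ m) ^ (4 * q + 2) := one_le_pow₀ hW1
  have h1 := total_le (regular_mono (regular_Im (q := q) (s := s) hΛ m) (le_max_left _ _) hN0)
    (regular_mono (regular_Im (q := q) (s := s') hΛ m) (le_max_right _ _) hN0)
    (by linarith) hN0 hη0 hη1
    (hη1.trans hH1) (V := ((2 : ℝ) ^ m) ^ (4 * q + 3)) (T := ((2 : ℝ) ^ m) ^ (2 * q + 2))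
    (by positivity) (by positivity)
  have h3 : c₀ * (2 : ℝ) ^ m ≤ ((Im q Λ s' m).card : ℝ) := by
    refine le_trans ?_ (le_card_Im (q := q) (s := s') hΛ m)
    calc c₀ * (2 : ℝ) ^ m ≤ 1 * (2 : ℝ) ^ m := mul_le_mul_of_nonneg_right hc1 (by positivity)
      _ = _ := one_mul _
  have h2 := scale_bound (q := q) (W := (2 : ℝ) ^ m) (n := ((Im q Λ s m).card : ℝ))
    (n' := ((Im q Λ s' m).card : ℝ))
    (N := Nm q m) (K := K) (c₀ := c₀) (C₀ := C₀) (ε := rho q ^ (s + 1)) (ε' := rho q ^ (s' + 1))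
    (δ := δ) (κ := κ)
    hW1 rfl rfl hδ (pow_le_pow_of_le_one (rho_nonneg q) hrho1 (by omega)) hκ0 hκ hc hC
    (by linarith) (card_Im_ge hΛ m) (card_Im_le (by omega) m)
    (le_trans (mul_le_mul_of_nonneg_right hcs (by positivity)) (card_Im_ge hΛ m)) h3
  exact h1.trans h2

/-- the coarse count at the scale `m` -/
lemma coarse_Im {s' A B₁ : ℕ} (hB₁ : B₁ = (1 + 2 * A) * (2 ^ (q + 1) + 1) + 2 ^ (q + 1))
    (hΛd : Λ = 1 + 16 * B₁) :
    ∃ c : ℝ, 0 < c ∧ ∃ m₀ : ℕ, ∀ m ≥ m₀, ∀ α : ℝ, 0 ≤ α → α ≤ A → ∀ y : ℝ,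
      (B₁ : ℝ) * Nm q m ≤ y → y ≤ (16 : ℝ) ^ (q + 1) * (B₁ : ℝ) * Nm q m →
      c * (((Im q Λ s m).card : ℝ) ^ 2 * ((Im q Λ s' m).card : ℝ) ^ 2 / Nm q m) ≤
        X (Im q Λ s m) (Im q Λ s' m) (val q) (val q) (((2 : ℝ) ^ m) ^ (4 * q + 2)) α y := by
  have hB1 : 1 ≤ B₁ := by
    have : 1 ≤ 2 ^ (q + 1) := Nat.one_le_two_pow
    omega
  have hΛ : 2 ≤ Λ := by omega
  have hΛr : (1 : ℝ) < Λ := by exact_mod_cast (by omega : 1 < Λ)
  obtain ⟨b, hb, hb'⟩ : ∃ b : ℕ, Bd q Λ (2 ^ (q + 1)) s * 2 ^ (q + 1) ≤ b ∧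
      Bd q Λ (2 ^ (q + 1)) s' * 2 ^ (q + 1) ≤ b := ⟨max _ _, le_max_left _ _, le_max_right _ _⟩
  obtain ⟨m₀, hm₀⟩ : ∃ m₀ : ℕ, (2 * (q + 1) * (Λ : ℝ) ^ q + 2 * b + 1) ≤ (2 : ℝ) ^ m₀ := by
    obtain ⟨m₀, h⟩ := pow_unbounded_of_one_lt (2 * (q + 1) * (Λ : ℝ) ^ q + 2 * b + 1)
      (by norm_num : (1 : ℝ) < 2)
    exact ⟨m₀, h.le⟩
  refine ⟨Real.exp (-π) / (4 * (q + 1) * (Λ : ℝ) ^ q * ((Λ : ℝ) - 1) ^ 4), ?_, m₀, ?_⟩
  · have : (0 : ℝ) < (Λ : ℝ) - 1 := by linarith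
    positivity
  intro m hm α hα0 hαA y hy1 hy2
  obtain ⟨W, hW⟩ : ∃ W : ℝ, W = (2 : ℝ) ^ m := ⟨_, rfl⟩
  rw [← hW]
  have hWb : 2 * (q + 1) * (Λ : ℝ) ^ q + 2 * b + 1 ≤ W :=
    hm₀.trans (by rw [hW]; exact pow_le_pow_right₀ (by norm_num) hm)
  have hΛq : (1 : ℝ) ≤ (Λ : ℝ) ^ q := one_le_pow₀ hΛr.le
  have hq0 : (0 : ℝ) ≤ q := by positivity
  have hb0 : (0 : ℝ) ≤ b := by positivity
  have hpos : (0 : ℝ) ≤ 2 * (q + 1) * (Λ : ℝ) ^ q := by positivity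
  have hW1 : 1 ≤ W := by linarith
  have hbW : 2 * (b : ℝ) ≤ W := by linarith
  have hdW : 2 * (q + 1) * (Λ : ℝ) ^ q ≤ W := by linarith
  have hW0 : 0 < W := by linarith
  set M : ℕ := Mn m with hMd
  have hMW : ((M : ℕ) : ℝ) = W ^ 4 := by rw [hMd, Mn, hW]; push_cast; rfl
  have hM1 : 1 ≤ M := one_le_Mn m
  have hP := isLev (q := q) hM1
  have hP0 : lev q M 0 = M := lev_zero q M
  set N : ℝ := Nm q m with hNd
  have hMN : (M : ℝ) ^ (q + 1) = N := Mn_pow m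
  have hN1 : 1 ≤ N := one_le_Nm m
  have hN0 : 0 < N := by linarith
  set H : ℝ := W ^ (4 * q + 2) with hH
  have hH0 : 0 < H := by positivity
  have hMq : (M : ℝ) ^ q = W ^ (4 * q) := by rw [hMW, ← pow_mul]
  have hMqN : (M : ℝ) ^ q * M = N := by rw [← pow_succ]; exact hMN
  set L' := lists (lev q M) Λ 1 s with hL'
  obtain ⟨I₀, hI1, hI2, hI3⟩ := exists_sub (s := s) hP hΛ
  rw [hP0] at hI2 hI3
  obtain ⟨J₀, hJ1, hJ2, hJ3⟩ := exists_sub (s := s') hP hΛ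
  rw [hP0] at hJ2 hJ3
  set w : ℝ := W ^ 2 / (2 * (q + 1) * (Λ : ℝ) ^ q) with hw
  have hden : (0 : ℝ) < 2 * (q + 1) * (Λ : ℝ) ^ q := by positivity
  have hw1 : 1 ≤ w := by
    rw [hw, le_div_iff₀ hden]
    have h3 : W ≤ W ^ 2 := le_self_pow₀ hW1 (by norm_num)
    linarith
  have hw2 : w ≤ M := by
    rw [hw, div_le_iff₀ hden, hMW]
    have h1 : (1 : ℝ) ≤ 2 * (q + 1) * (Λ : ℝ) ^ q := by
      have : (1 : ℝ) ≤ (q + 1) * (Λ : ℝ) ^ q := by nlinarith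
      linarith
    have h2 : W ^ 2 ≤ W ^ 4 := pow_le_pow_right₀ hW1 (by norm_num)
    calc W ^ 2 ≤ W ^ 4 * 1 := by rw [mul_one]; exact h2
      _ ≤ W ^ 4 * (2 * (q + 1) * (Λ : ℝ) ^ q) := mul_le_mul_of_nonneg_left h1 (by positivity)
  have hHw : (q + 1) * ((Λ * M : ℕ) : ℝ) ^ q * w + ((b * M ^ q : ℕ) : ℝ) ≤ H := by
    have h1 : (q + 1) * ((Λ * M : ℕ) : ℝ) ^ q * w = H / 2 := by
      push_cast
      rw [mul_pow, hMq, hw, hH, show 4 * q + 2 = 4 * q + 2 from rfl, pow_add]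
      field_simp
    have h2 : ((b * M ^ q : ℕ) : ℝ) ≤ H / 2 := by
      push_cast
      rw [hMq, hH, pow_add]
      have h3 : (b : ℝ) ≤ W ^ 2 / 2 := by
        have h3 : W ≤ W ^ 2 := le_self_pow₀ hW1 (by norm_num)
        linarith
      have h4 : 0 < W ^ (4 * q) := by positivity
      calc (b : ℝ) * W ^ (4 * q) ≤ W ^ 2 / 2 * W ^ (4 * q) :=
            mul_le_mul_of_nonneg_right h3 h4.le
        _ = _ := by ring
    linarith
  have hcardI : ((Im q Λ s m).card : ℝ) = ((Λ : ℝ) - 1) * M * L'.card := by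
    unfold Im
    rw [card_lists, ← hMd, hP0, ← hL', Nat.cast_mul, Nat.cast_sub (Nat.le_mul_of_pos_left _ (by omega))]
    push_cast; ring
  have hsub : (0 : ℝ) < (Λ : ℝ) - 1 := by linarith
  have hM0 : (0 : ℝ) < M := by exact_mod_cast hM1
  have hcardJ : ((Im q Λ s' m).card : ℝ) =
      ((Λ : ℝ) - 1) * M * (lists (lev q M) Λ 1 s').card := by
    unfold Im
    rw [card_lists, ← hMd, hP0, Nat.cast_mul, Nat.cast_sub (Nat.le_mul_of_pos_left _ (by omega))]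
    push_cast; ring
  -- upper bound for the small elements
  have hbound : ∀ b₁ : ℕ, b₁ ≤ b → ∀ v : ℕ, v ≤ (2 * M) ^ (q + 1) + b₁ * M ^ q →
      (v : ℝ) ≤ ((2 ^ (q + 1) + 1 : ℕ) : ℝ) * N := by
    intro b₁ hb₁ v hv
    have h1 : (v : ℝ) ≤ (2 * (M : ℝ)) ^ (q + 1) + b * (M : ℝ) ^ q := by
      have h3 : v ≤ (2 * M) ^ (q + 1) + b * M ^ q :=
        hv.trans (Nat.add_le_add_left (Nat.mul_le_mul_right _ hb₁) _)
      exact_mod_cast h3
    refine h1.trans ?_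
    rw [mul_pow, hMN]
    have h2 : (b : ℝ) * (M : ℝ) ^ q ≤ N := by
      rw [← hMqN, mul_comm ((M : ℝ) ^ q)]
      refine mul_le_mul_of_nonneg_right ?_ (by positivity)
      rw [hMW]
      have h3 : W ≤ W ^ 4 := le_self_pow₀ hW1 (by norm_num)
      linarith
    push_cast
    linarith
  have hval : ∀ l ∈ I₀, (val q l : ℝ) ≤ ((2 ^ (q + 1) + 1 : ℕ) : ℝ) * N :=
    fun l hl => hbound _ hb _ (hI3 l hl)
  have hval' : ∀ l ∈ J₀, (val q l : ℝ) ≤ ((2 ^ (q + 1) + 1 : ℕ) : ℝ) * N :=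
    fun l hl => hbound _ hb' _ (hJ3 l hl)
  have hcount := coarse_lower (I := Im q Λ s m) (a := val q) (I₀ := I₀) (J := Im q Λ s' m)
      (b := val q) (J₀ := J₀) (by
      unfold Im; exact hI1) (by unfold Im; exact hJ1) (H := H) (α := α) (y := y)
      (R := w / 2 * (L'.card : ℝ)) hH0 (by
    intro j hj i hi j' hj'
    have v1 := hval' j hj
    have v2 := hval i hi
    have v3 := hval' j' hj'
    have p1 : (0 : ℝ) ≤ val q j := by positivity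
    have p2 : (0 : ℝ) ≤ val q i := by positivity
    have p3 : (0 : ℝ) ≤ val q j' := by positivity
    have hz1 : ((2 * lev q M 0 : ℕ) : ℝ) ^ (q + 1) ≤
        y - (val q i : ℝ) - α * ((val q j : ℝ) + val q j') := by
      rw [hP0]
      push_cast
      rw [mul_pow, hMN]
      set D : ℝ := ((2 ^ (q + 1) + 1 : ℕ) : ℝ) * N with hD
      have hD0 : 0 ≤ D := by positivity
      have e1 : α * ((val q j : ℝ) + val q j') ≤ A * (D + D) := by gcongr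
      have e2 : (B₁ : ℝ) * N = (1 + 2 * A) * D + 2 ^ (q + 1) * N := by
        rw [hB₁, hD]; push_cast; ring
      have e3 : (B₁ : ℝ) * N ≤ y := hy1
      linarith
    have hz2 : y - (val q i : ℝ) - α * ((val q j : ℝ) + val q j') ≤
        (((Λ - 1) * lev q M 0 : ℕ) : ℝ) ^ (q + 1) := by
      rw [hP0]
      have e0 : Λ - 1 = 16 * B₁ := by omega
      rw [e0]
      push_cast
      rw [mul_pow, mul_pow, hMN]
      have e1 : 0 ≤ α * ((val q j : ℝ) + val q j') := by positivity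
      have e2 : (B₁ : ℝ) ≤ (B₁ : ℝ) ^ (q + 1) :=
        le_self_pow₀ (by exact_mod_cast hB1) (by omega)
      have e3 : y ≤ (16 : ℝ) ^ (q + 1) * (B₁ : ℝ) * N := hy2
      have e4 : (16 : ℝ) ^ (q + 1) * (B₁ : ℝ) * N ≤ (16 : ℝ) ^ (q + 1) * (B₁ : ℝ) ^ (q + 1) * N := by
        gcongr
      linarith
    have := near_lists (s := s) (H := H) hP (by omega) hz1 hz2 hw1 (by rw [hP0]; exact hw2)
      (by
        rw [hP0]
        refine le_trans ?_ hHw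
        have : ((Bd q Λ (2 ^ (q + 1)) s * 2 ^ (q + 1) * M ^ q : ℕ) : ℝ) ≤ ((b * M ^ q : ℕ) : ℝ) := by
          exact_mod_cast Nat.mul_le_mul_right _ hb
        linarith)
    unfold Im
    exact this)
  refine le_trans (le_of_eq ?_) hcount
  rw [hcardI, hcardJ, hI2, hJ2]
  push_cast
  rw [← hL', hw]
  have hHN : H = W ^ (4 * q) * W ^ 2 := by rw [hH, pow_add]
  have hNW : N = W ^ (4 * q) * W ^ 4 := by rw [← hMqN, hMq, hMW]
  rw [hHN, hNW, hMW]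
  field_simp
  ring

end Pool.Agent.V7H21.MW
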