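import Mathlib

/-!
Sums of powers with diminishing ranges: they are evenly distributed at all scales, up to constants.
-/

set_option autoImplicit false

namespace Pool.Agent.V7H21.MW

open Finset

/-- `cons` as an embedding -/
def consEmb : ℕ × List ℕ ↪ List ℕ :=
  ⟨fun p => p.1 :: p.2, fun p p' h => by
    simp only [List.cons.injEq] at h
    exact Prod.ext h.1 h.2⟩

lemma consEmb_apply (p : ℕ × List ℕ) : consEmb p = p.1 :: p.2 := rfl

/-- lists `[x_j, ..., x_(j+s-1)]` with `P i < x_i ≤ Λ * P i` -/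
def lists (P : ℕ → ℕ) (Λ : ℕ) : ℕ → ℕ → Finset (List ℕ)
  | _, 0 => {[]}
  | j, s + 1 => (Ioc (P j) (Λ * P j) ×ˢ lists P Λ (j + 1) s).map consEmb

/-- the sum of the `(q+1)`-th powers -/
def val (q : ℕ) (l : List ℕ) : ℕ := (l.map (fun x => x ^ (q + 1))).sum

lemma val_cons (q x : ℕ) (l : List ℕ) : val q (x :: l) = x ^ (q + 1) + val q l := by
  simp [val]

variable {P : ℕ → ℕ} {Λ q : ℕ}

lemma sum_lists (j s : ℕ) {M : Type*} [AddCommMonoid M] (f : List ℕ → M) :
    ∑ l ∈ lists P Λ j (s + 1), f l =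
      ∑ x ∈ Ioc (P j) (Λ * P j), ∑ l ∈ lists P Λ (j + 1) s, f (x :: l) := by
  simp only [lists]
  rw [sum_map, sum_product]
  rfl

lemma card_lists (j s : ℕ) : (lists P Λ j (s + 1)).card =
    (Λ * P j - P j) * (lists P Λ (j + 1) s).card := by
  simp only [lists]
  rw [card_map, card_product, Nat.card_Ioc]

lemma length_of_mem {j s : ℕ} {l : List ℕ} (h : l ∈ lists P Λ j s) : l.length = s := by
  induction s generalizing j l with
  | zero => simp only [lists, mem_singleton] at h; simp [h]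
  | succ s ih =>
    simp only [lists, mem_map, mem_product] at h
    obtain ⟨p, ⟨_, h2⟩, rfl⟩ := h
    rw [consEmb_apply, List.length_cons, ih h2]

/-- the levels are compatible with the exponent `q + 1` -/
structure Lev (P : ℕ → ℕ) (q c : ℕ) : Prop where
  one : ∀ i, 1 ≤ P i
  up : ∀ i, P (i + 1) ^ (q + 1) ≤ c * P i ^ q
  down : ∀ i, P i ^ q ≤ c * P (i + 1) ^ (q + 1)

/-- bound for the sums -/
def Bd (q Λ c : ℕ) : ℕ → ℕ
  | 0 => 0
  | s + 1 => Λ ^ (q + 1) + Bd q Λ c s * c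

lemma val_le {c : ℕ} (hP : Lev P q c) {j s : ℕ} {l : List ℕ} (h : l ∈ lists P Λ j s) :
    val q l ≤ Bd q Λ c s * P j ^ (q + 1) := by
  induction s generalizing j l with
  | zero => simp only [lists, mem_singleton] at h; simp [h, val]
  | succ s ih =>
    simp only [lists, mem_map, mem_product] at h
    obtain ⟨p, ⟨h1, h2⟩, rfl⟩ := h
    rw [consEmb_apply, val_cons, Bd]
    have h3 := ih h2
    have h4 : p.1 ^ (q + 1) ≤ Λ ^ (q + 1) * P j ^ (q + 1) := by
      rw [← mul_pow]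
      exact Nat.pow_le_pow_left (mem_Ioc.1 h1).2 _
    have h5 : P (j + 1) ^ (q + 1) ≤ c * P j ^ (q + 1) :=
      (hP.up j).trans (Nat.mul_le_mul_left _ (Nat.pow_le_pow_right (hP.one j) (by omega)))
    calc p.1 ^ (q + 1) + val q p.2 ≤ Λ ^ (q + 1) * P j ^ (q + 1) +
          Bd q Λ c s * (c * P j ^ (q + 1)) := by
          have := Nat.mul_le_mul_left (Bd q Λ c s) h5
          omega
      _ = (Λ ^ (q + 1) + Bd q Λ c s * c) * P j ^ (q + 1) := by ring

/-- finer bound for the tail -/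
lemma val_tail_le {c : ℕ} (hP : Lev P q c) {j s : ℕ} {l : List ℕ}
    (h : l ∈ lists P Λ (j + 1) s) : val q l ≤ Bd q Λ c s * c * P j ^ q := by
  calc val q l ≤ Bd q Λ c s * P (j + 1) ^ (q + 1) := val_le hP h
    _ ≤ Bd q Λ c s * (c * P j ^ q) := Nat.mul_le_mul_left _ (hP.up j)
    _ = Bd q Λ c s * c * P j ^ q := by ring

lemma card_close {X : Finset ℕ} {p : ℕ} (hp : 1 ≤ p) {z R : ℝ} (hR : 0 ≤ R)
    (h : ∀ x ∈ X, p ≤ x ∧ |((x : ℝ)) ^ (q + 1) - z| ≤ R) :
    (X.card : ℝ) ≤ 1 + 2 * R / (p : ℝ) ^ q := by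
  rcases X.eq_empty_or_nonempty with rfl | hX
  · simp only [card_empty, Nat.cast_zero]; positivity
  have hp0 : (0 : ℝ) < p := by exact_mod_cast hp
  set a := X.min' hX
  set b := X.max' hX
  have ha := h a (X.min'_mem hX)
  have hb := h b (X.max'_mem hX)
  have hab : a ≤ b := X.min'_le _ (X.max'_mem hX)
  have h1 : X.card ≤ b + 1 - a := by
    rw [← Nat.card_Icc]
    exact card_le_card fun x hx => mem_Icc.2 ⟨X.min'_le _ hx, X.le_max' _ hx⟩
  have h2 : (X.card : ℝ) ≤ (b : ℝ) - a + 1 := by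
    have h3 : X.card + a ≤ b + 1 := by omega
    have h4 : (X.card : ℝ) + a ≤ b + 1 := by exact_mod_cast h3
    linarith
  have h5 : ((b : ℝ) - a) * (p : ℝ) ^ q ≤ 2 * R := by
    have e1 := abs_le.1 ha.2
    have e2 := abs_le.1 hb.2
    have e3 : ((b : ℝ)) ^ (q + 1) - (a : ℝ) ^ (q + 1) ≤ 2 * R := by linarith [e1.1, e2.2]
    have e4 : (a : ℝ) ≤ b := by exact_mod_cast hab
    have e5 : (p : ℝ) ^ q ≤ (a : ℝ) ^ q :=
      pow_le_pow_left₀ hp0.le (by exact_mod_cast ha.1) _
    have e6 : (a : ℝ) ^ q ≤ (b : ℝ) ^ q := pow_le_pow_left₀ (by positivity) e4 _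
    have e7 : (b : ℝ) * (a : ℝ) ^ q ≤ (b : ℝ) ^ (q + 1) := by
      rw [pow_succ']
      exact mul_le_mul_of_nonneg_left e6 (by positivity)
    calc ((b : ℝ) - a) * (p : ℝ) ^ q ≤ ((b : ℝ) - a) * (a : ℝ) ^ q :=
          mul_le_mul_of_nonneg_left e5 (by linarith)
      _ = b * (a : ℝ) ^ q - (a : ℝ) ^ (q + 1) := by ring
      _ ≤ 2 * R := by linarith
  have h6 : (b : ℝ) - a ≤ 2 * R / (p : ℝ) ^ q := by
    rw [le_div_iff₀ (by positivity)]
    exact h5
  linarith

/-- the constants of the counting bound -/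
noncomputable def Kc (q Λ c : ℕ) : ℕ → ℝ
  | 0 => 1
  | s + 1 => (3 + 2 * ((Bd q Λ c s : ℝ) * c)) * (Kc q Λ c s) * (c + 1)

lemma one_le_Kc (q Λ c s : ℕ) : 1 ≤ Kc q Λ c s := by
  induction s with
  | zero => simp [Kc]
  | succ s ih =>
    rw [Kc]
    have h1 : (0 : ℝ) ≤ (Bd q Λ c s : ℝ) * c := by positivity
    have h2 : (0 : ℝ) ≤ (c : ℝ) := by positivity
    have h3 : 1 ≤ (3 + 2 * ((Bd q Λ c s : ℝ) * c)) * (Kc q Λ c s) := by nlinarith
    nlinarith

open Classical in
/-- the sums are evenly distributed, up to constants, at all scales -/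
theorem count_le {c : ℕ} (hP : Lev P q c) (hΛ : 2 ≤ Λ) (s : ℕ) : ∀ (j : ℕ) (z h : ℝ), 0 ≤ h →
    (((lists P Λ j s).filter fun l => |((val q l : ℕ) : ℝ) - z| ≤ h).card : ℝ) ≤
      Kc q Λ c s * (((lists P Λ j s).card : ℝ) * h / (P j : ℝ) ^ (q + 1) + 1) := by
  induction s with
  | zero =>
    intro j z h hh
    have h1 : ((lists P Λ j 0).filter fun l => |((val q l : ℕ) : ℝ) - z| ≤ h).card ≤ 1 := by
      refine (card_filter_le _ _).trans ?_
      simp [lists]
    have h2 : (((lists P Λ j 0).filter fun l => |((val q l : ℕ) : ℝ) - z| ≤ h).card : ℝ) ≤ 1 := by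
      exact_mod_cast h1
    rw [Kc, one_mul]
    have : 0 ≤ ((lists P Λ j 0).card : ℝ) * h / (P j : ℝ) ^ (q + 1) := by positivity
    linarith
  | succ s ih =>
    intro j z h hh
    have hPj : (0 : ℝ) < P j := by exact_mod_cast hP.one j
    have hPj1 : (0 : ℝ) < P (j + 1) := by exact_mod_cast hP.one (j + 1)
    set L' := lists P Λ (j + 1) s with hL'
    set B : ℝ := (Bd q Λ c s : ℝ) * c with hB
    have hB0 : 0 ≤ B := by positivity
    have hK := one_le_Kc q Λ c s
    -- the count as a sum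
    have h1 : (((lists P Λ j (s + 1)).filter fun l => |((val q l : ℕ) : ℝ) - z| ≤ h).card : ℝ) =
        ∑ x ∈ Ioc (P j) (Λ * P j),
          ((L'.filter fun l => |((val q l : ℕ) : ℝ) - (z - (x : ℝ) ^ (q + 1))| ≤ h).card : ℝ) := by
      rw [card_filter, Nat.cast_sum, sum_lists]
      refine sum_congr rfl fun x _ => ?_
      rw [card_filter, Nat.cast_sum]
      refine sum_congr rfl fun l _ => ?_
      have e : ((val q (x :: l) : ℕ) : ℝ) - z = ((val q l : ℕ) : ℝ) - (z - (x : ℝ) ^ (q + 1)) := by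
        rw [val_cons]; push_cast; ring
      rw [e]
    set R : ℝ := h + B * (P j : ℝ) ^ q with hR
    have hR0 : 0 ≤ R := by positivity
    set X := (Ioc (P j) (Λ * P j)).filter fun x => |((x : ℕ) : ℝ) ^ (q + 1) - z| ≤ R with hX
    have hXc : (X.card : ℝ) ≤ 1 + 2 * R / (P j : ℝ) ^ q := by
      refine card_close (z := z) (hP.one j) hR0 fun x hx => ?_
      rw [hX, mem_filter, mem_Ioc] at hx
      exact ⟨hx.1.1.le, hx.2⟩
    have hzero : ∀ x ∈ Ioc (P j) (Λ * P j), x ∉ X →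
        ((L'.filter fun l => |((val q l : ℕ) : ℝ) - (z - (x : ℝ) ^ (q + 1))| ≤ h).card : ℝ) = 0 := by
      intro x hx hxX
      rw [Nat.cast_eq_zero, card_eq_zero, filter_eq_empty_iff]
      intro l hl hle
      apply hxX
      rw [hX, mem_filter]
      refine ⟨hx, ?_⟩
      have h2 : ((val q l : ℕ) : ℝ) ≤ B * (P j : ℝ) ^ q := by
        have := val_tail_le hP hl
        rw [hB]
        exact_mod_cast this
      have h3 : (0 : ℝ) ≤ ((val q l : ℕ) : ℝ) := by positivity
      rw [abs_le] at hle ⊢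
      constructor <;> linarith [hle.1, hle.2]
    -- bound for each `x`
    set m : ℝ := min (L'.card : ℝ) (Kc q Λ c s * ((L'.card : ℝ) * h / (P (j + 1) : ℝ) ^ (q + 1) + 1))
      with hm
    have hm0 : 0 ≤ m := le_min (by positivity) (by positivity)
    have h4 : ∀ x, ((L'.filter fun l => |((val q l : ℕ) : ℝ) - (z - (x : ℝ) ^ (q + 1))| ≤ h).card : ℝ)
        ≤ m := by
      intro x
      refine le_min ?_ (ih (j + 1) _ h hh)
      exact_mod_cast card_filter_le _ _
    have h5 : (((lists P Λ j (s + 1)).filter fun l => |((val q l : ℕ) : ℝ) - z| ≤ h).card : ℝ) ≤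
        (1 + 2 * R / (P j : ℝ) ^ q) * m := by
      rw [h1]
      calc ∑ x ∈ Ioc (P j) (Λ * P j),
          ((L'.filter fun l => |((val q l : ℕ) : ℝ) - (z - (x : ℝ) ^ (q + 1))| ≤ h).card : ℝ)
          = ∑ x ∈ X, ((L'.filter fun l =>
              |((val q l : ℕ) : ℝ) - (z - (x : ℝ) ^ (q + 1))| ≤ h).card : ℝ) :=
            (sum_subset (filter_subset _ _) hzero).symm
        _ ≤ ∑ _x ∈ X, m := sum_le_sum fun x _ => h4 x
        _ = X.card * m := by rw [sum_const, nsmul_eq_mul]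
        _ ≤ _ := mul_le_mul_of_nonneg_right hXc hm0
    have h6 : 1 + 2 * R / (P j : ℝ) ^ q = 1 + 2 * B + 2 * (h / (P j : ℝ) ^ q) := by
      rw [hR]; field_simp; ring
    rw [h6] at h5
    have hcard : ((lists P Λ j (s + 1)).card : ℝ) = ((Λ : ℝ) - 1) * P j * L'.card := by
      rw [card_lists, ← hL', Nat.cast_mul, Nat.cast_sub (Nat.le_mul_of_pos_left _ (by omega))]
      push_cast; ring
    have hΛ' : (2 : ℝ) ≤ Λ := by exact_mod_cast hΛ
    have h7 : ((lists P Λ j (s + 1)).card : ℝ) * h / (P j : ℝ) ^ (q + 1) =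
        ((Λ : ℝ) - 1) * (L'.card * (h / (P j : ℝ) ^ q)) := by
      rw [hcard, pow_succ]; field_simp
    have h8 : (L'.card : ℝ) * (h / (P j : ℝ) ^ q) ≤
        ((lists P Λ j (s + 1)).card : ℝ) * h / (P j : ℝ) ^ (q + 1) := by
      rw [h7]
      have : 0 ≤ (L'.card : ℝ) * (h / (P j : ℝ) ^ q) := by positivity
      nlinarith
    refine h5.trans ?_
    rw [Kc, ← hB]
    set Y : ℝ := ((lists P Λ j (s + 1)).card : ℝ) * h / (P j : ℝ) ^ (q + 1) with hY
    have hY0 : 0 ≤ Y := by positivity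
    have hm2 : m ≤ (L'.card : ℝ) := min_le_left _ _
    have hm3 : m ≤ Kc q Λ c s * ((L'.card : ℝ) * h / (P (j + 1) : ℝ) ^ (q + 1) + 1) :=
      min_le_right _ _
    clear_value Y m B L'
    clear hzero h4 ih h1
    rcases le_total h ((P j : ℝ) ^ q) with hc | hc
    · -- small `h`
      have h9 : h / (P j : ℝ) ^ q ≤ 1 := by rw [div_le_one (by positivity)]; exact hc
      have h10 : m ≤ Kc q Λ c s * (c * Y + 1) := by
        refine hm3.trans ?_
        refine mul_le_mul_of_nonneg_left ?_ (by linarith : (0 : ℝ) ≤ Kc q Λ c s)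
        have h11 : (L'.card : ℝ) * h / (P (j + 1) : ℝ) ^ (q + 1) ≤
            c * ((L'.card : ℝ) * (h / (P j : ℝ) ^ q)) := by
          have h12 : ((P j : ℝ)) ^ q ≤ c * (P (j + 1) : ℝ) ^ (q + 1) := by exact_mod_cast hP.down j
          rw [div_le_iff₀ (by positivity)]
          calc (L'.card : ℝ) * h = (L'.card : ℝ) * (h / (P j : ℝ) ^ q) * (P j : ℝ) ^ q := by
                field_simp
            _ ≤ (L'.card : ℝ) * (h / (P j : ℝ) ^ q) * (c * (P (j + 1) : ℝ) ^ (q + 1)) := by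
                gcongr
            _ = _ := by ring
        have h13 : (c : ℝ) * ((L'.card : ℝ) * (h / (P j : ℝ) ^ q)) ≤ c * Y :=
          mul_le_mul_of_nonneg_left h8 (by positivity)
        linarith
      have h14 : (c : ℝ) * Y + 1 ≤ (c + 1) * (Y + 1) := by
        have : (0 : ℝ) ≤ c := by positivity
        nlinarith
      calc (1 + 2 * B + 2 * (h / (P j : ℝ) ^ q)) * m ≤ (3 + 2 * B) * m :=
            mul_le_mul_of_nonneg_right (by linarith) hm0
        _ ≤ (3 + 2 * B) * (Kc q Λ c s * ((c + 1) * (Y + 1))) := by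
            refine mul_le_mul_of_nonneg_left (h10.trans ?_) (by linarith)
            exact mul_le_mul_of_nonneg_left h14 (by linarith)
        _ = _ := by ring
    · -- large `h`
      have h9 : 1 ≤ h / (P j : ℝ) ^ q := by rw [le_div_iff₀ (by positivity), one_mul]; exact hc
      have h10 : (1 + 2 * B + 2 * (h / (P j : ℝ) ^ q)) ≤ (3 + 2 * B) * (h / (P j : ℝ) ^ q) := by
        nlinarith
      calc (1 + 2 * B + 2 * (h / (P j : ℝ) ^ q)) * m
          ≤ ((3 + 2 * B) * (h / (P j : ℝ) ^ q)) * L'.card :=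
            mul_le_mul h10 hm2 hm0 (by positivity)
        _ = (3 + 2 * B) * ((L'.card : ℝ) * (h / (P j : ℝ) ^ q)) := by ring
        _ ≤ (3 + 2 * B) * Y := mul_le_mul_of_nonneg_left h8 (by linarith)
        _ ≤ (3 + 2 * B) * Kc q Λ c s * (c + 1) * (Y + 1) := by
            have hc0 : (0 : ℝ) ≤ c := by positivity
            have e1 : (3 + 2 * B) * Y ≤ (3 + 2 * B) * (Y + 1) :=
              mul_le_mul_of_nonneg_left (by linarith) (by linarith)
            have e2 : 1 ≤ Kc q Λ c s * (c + 1) := by nlinarith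
            have e3 : 0 ≤ (3 + 2 * B) * (Y + 1) := by positivity
            calc (3 + 2 * B) * Y ≤ (3 + 2 * B) * (Y + 1) * 1 := by rw [mul_one]; exact e1
              _ ≤ (3 + 2 * B) * (Y + 1) * (Kc q Λ c s * (c + 1)) :=
                mul_le_mul_of_nonneg_left e2 e3
              _ = _ := by ring

end Pool.Agent.V7H21.MW
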