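import Pool.Agent.V7H21.MW.Final

/-!
The statements on sums of powers of elements of `ℕ ∪ βℕ`.
-/

set_option autoImplicit false

namespace Pool.Agent.V7H21.MW

open MeasureTheory Finset Filter Topology
open scoped Real

lemma exists_fun (q : ℕ) : ∀ (n : ℕ) (l : List ℕ), l.length = n →
    ∃ x : Fin n → ℕ, ∑ i, x i ^ (q + 1) = val q l := by
  intro n
  induction n with
  | zero =>
    intro l hl
    rw [List.length_eq_zero_iff] at hl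
    exact ⟨fun _ => 0, by simp [hl, val]⟩
  | succ n ih =>
    intro l hl
    cases l with
    | nil => simp at hl
    | cons a l =>
      obtain ⟨x, hx⟩ := ih l (by simpa using hl)
      refine ⟨Fin.cons a x, ?_⟩
      rw [Fin.sum_univ_succ, val_cons, ← hx]
      simp

lemma val_append (q : ℕ) (l l' : List ℕ) : val q (l ++ l') = val q l + val q l' := by
  simp [val]

/-- near every large real number -/
def Near (γ : ℝ) (k s t : ℕ) (δ : ℝ) : Prop :=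
  ∃ y₀ : ℝ, ∀ y ≥ y₀, ∃ (x : Fin s → ℕ) (z : Fin t → ℕ),
    |∑ i, (x i : ℝ) ^ k + γ * ∑ j, (z j : ℝ) ^ k - y| ≤ y ^ (-δ)

lemma near_of_lists {α : ℝ} {q s t : ℕ} {δ : ℝ} (h : ∃ y₀ : ℝ, ∀ y ≥ y₀,
      ∃ l₁ l₂ l₃ l₄ : List ℕ,
      l₁.length = s ∧ l₂.length = s ∧ l₃.length = t ∧ l₄.length = t ∧
      |((val q l₁ : ℝ) + val q l₂) + α * ((val q l₃ : ℝ) + val q l₄) - y| ≤ y ^ (-δ)) :
    Near α (q + 1) (2 * s) (2 * t) δ := by
  obtain ⟨y₀, h⟩ := h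
  refine ⟨y₀, fun y hy => ?_⟩
  obtain ⟨l₁, l₂, l₃, l₄, h1, h2, h3, h4, h5⟩ := h y hy
  obtain ⟨x, hx⟩ := exists_fun q (2 * s) (l₁ ++ l₂) (by rw [List.length_append, h1, h2]; ring)
  obtain ⟨z, hz⟩ := exists_fun q (2 * t) (l₃ ++ l₄) (by rw [List.length_append, h3, h4]; ring)
  refine ⟨x, z, ?_⟩
  have e1 : ∑ i, (x i : ℝ) ^ (q + 1) = (val q l₁ : ℝ) + val q l₂ := by
    rw [val_append] at hx
    exact_mod_cast hx
  have e2 : ∑ i, (z i : ℝ) ^ (q + 1) = (val q l₃ : ℝ) + val q l₄ := by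
    rw [val_append] at hz
    exact_mod_cast hz
  rw [e1, e2]
  exact h5

/-- the fixed parameters, all coefficients -/
theorem near_fixed {k s t : ℕ} (hk : 1 ≤ k) (ht : 1 ≤ t) (hst : t ≤ s) {δ : ℝ} (hδ : 0 ≤ δ)
    (h : (1 - 1 / (k : ℝ)) ^ s + (1 - 1 / (k : ℝ)) ^ t + δ < 1) :
    ∀ᵐ α : ℝ, 0 ≤ α → Near α k (2 * s) (2 * t) δ := by
  obtain ⟨q, rfl⟩ : ∃ q, k = q + 1 := ⟨k - 1, by omega⟩
  obtain ⟨s', rfl⟩ : ∃ s', s = s' + 1 := ⟨s - 1, by omega⟩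
  obtain ⟨t', rfl⟩ : ∃ t', t = t' + 1 := ⟨t - 1, by omega⟩
  have hr : (1 - 1 / ((q + 1 : ℕ) : ℝ)) = rho q := by
    unfold rho; push_cast; field_simp; ring
  rw [hr] at h
  have h1 : ∀ A : ℕ, ∀ᵐ α : ℝ, 0 ≤ α → α ≤ A → Near α (q + 1) (2 * (s' + 1)) (2 * (t' + 1)) δ := by
    intro A
    filter_upwards [main_fixed q s' t' A (by omega) hδ h] with α hα h0 hA
    exact near_of_lists (hα h0 hA)
  filter_upwards [ae_all_iff.2 h1] with α hα h0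
  exact hα ⌈α⌉₊ h0 (Nat.le_ceil α)

lemma near_mono {γ : ℝ} {k s t : ℕ} {δ δ' : ℝ} (h : Near γ k s t δ') (hδ : δ ≤ δ') :
    Near γ k s t δ := by
  obtain ⟨y₀, h⟩ := h
  refine ⟨max y₀ 1, fun y hy => ?_⟩
  obtain ⟨x, z, hxz⟩ := h y ((le_max_left _ _).trans hy)
  refine ⟨x, z, hxz.trans ?_⟩
  exact Real.rpow_le_rpow_of_exponent_le ((le_max_right _ _).trans hy) (by linarith)

/-- all the parameters at once -/
theorem near_all : ∀ᵐ α : ℝ, 0 ≤ α → ∀ k s t : ℕ, ∀ δ : ℝ, 1 ≤ k → 1 ≤ t → t ≤ s → 0 ≤ δ →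
    (1 - 1 / (k : ℝ)) ^ s + (1 - 1 / (k : ℝ)) ^ t + δ < 1 → Near α k (2 * s) (2 * t) δ := by
  have h1 : ∀ p : ℕ × ℕ × ℕ × ℚ, ∀ᵐ α : ℝ, 0 ≤ α → 1 ≤ p.1 → 1 ≤ p.2.2.1 → p.2.2.1 ≤ p.2.1 →
      (0 : ℝ) ≤ (p.2.2.2 : ℝ) →
      (1 - 1 / (p.1 : ℝ)) ^ p.2.1 + (1 - 1 / (p.1 : ℝ)) ^ p.2.2.1 + (p.2.2.2 : ℝ) < 1 →
      Near α p.1 (2 * p.2.1) (2 * p.2.2.1) (p.2.2.2 : ℝ) := by
    rintro ⟨k, s, t, δ⟩
    simp only
    by_cases hc : 1 ≤ k ∧ 1 ≤ t ∧ t ≤ s ∧ (0 : ℝ) ≤ (δ : ℝ) ∧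
      (1 - 1 / (k : ℝ)) ^ s + (1 - 1 / (k : ℝ)) ^ t + (δ : ℝ) < 1
    · filter_upwards [near_fixed hc.1 hc.2.1 hc.2.2.1 hc.2.2.2.1 hc.2.2.2.2] with α hα h0 _ _ _ _ _
      exact hα h0
    · filter_upwards with α _ h2 h3 h4 h5 h6
      exact absurd ⟨h2, h3, h4, h5, h6⟩ hc
  filter_upwards [ae_all_iff.2 h1] with α hα h0 k s t δ hk ht hst hδ h
  obtain ⟨δ', h2, h3⟩ := exists_rat_btwn (show δ < 1 - (1 - 1 / (k : ℝ)) ^ s -
    (1 - 1 / (k : ℝ)) ^ t by linarith)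
  have h4 := hα (k, s, t, δ') h0 hk ht hst (by simp only; linarith) (by simp only; linarith)
  exact near_mono h4 h2.le

lemma ae_pow {P : ℝ → Prop} (h : ∀ᵐ α : ℝ, P α) {k : ℕ} (hk : 1 ≤ k) :
    ∀ᵐ β : ℝ, 0 < β → P (β ^ k) := by
  rw [ae_iff] at h ⊢
  set S : Set ℝ := {α | ¬ P α} with hS
  have h1 : {β : ℝ | ¬ (0 < β → P (β ^ k))} ⊆
      (fun α : ℝ => α ^ ((k : ℝ)⁻¹)) '' (S ∩ Set.Ioi 0) := by
    intro β hβ
    simp only [Set.mem_ofPred_eq] at hβ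
    push Not at hβ
    refine ⟨β ^ k, ⟨hβ.2, Set.mem_Ioi.2 (pow_pos hβ.1 k)⟩, ?_⟩
    exact Real.pow_rpow_inv_natCast hβ.1.le (by omega)
  refine measure_mono_null h1 ?_
  refine addHaar_image_eq_zero_of_differentiableOn_of_addHaar_eq_zero volume ?_
    (measure_mono_null Set.inter_subset_left h)
  intro x hx
  exact (Real.differentiableAt_rpow_const_of_ne _ (ne_of_gt hx.2)).differentiableWithinAt

/-- every large integer is the integer part of a sum of `s` powers of integers and `t` powers of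
integral multiples of `β` -/
def Order (β : ℝ) (k s t : ℕ) : Prop :=
  ∃ n₀ : ℕ, ∀ n ≥ n₀, ∃ (x : Fin s → ℕ) (z : Fin t → ℕ),
    ⌊∑ i, (x i : ℝ) ^ k + ∑ j, (β * z j) ^ k⌋₊ = n

lemma order_of_near {β : ℝ} {k s t : ℕ} {δ : ℝ} (hδ : 0 < δ) (h : Near (β ^ k) k s t δ) :
    Order β k s t := by
  obtain ⟨y₀, h⟩ := h
  have h1 : Tendsto (fun y : ℝ => y ^ (-δ)) atTop (𝓝 0) := tendsto_rpow_neg_atTop hδ
  obtain ⟨y₁, hy₁⟩ := eventually_atTop.1 (h1.eventually (gt_mem_nhds (by norm_num : (0 : ℝ) < 1 / 2)))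
  refine ⟨⌈max y₀ y₁⌉₊, fun n hn => ?_⟩
  have h2 : max y₀ y₁ ≤ n := (Nat.le_ceil _).trans (by exact_mod_cast hn)
  have h3 : y₀ ≤ (n : ℝ) + 1 / 2 := by linarith [le_max_left y₀ y₁]
  have h4 : y₁ ≤ (n : ℝ) + 1 / 2 := by linarith [le_max_right y₀ y₁]
  obtain ⟨x, z, hxz⟩ := h ((n : ℝ) + 1 / 2) h3
  refine ⟨x, z, ?_⟩
  have h5 := hy₁ ((n : ℝ) + 1 / 2) h4
  have h6 : ∑ j, (β * (z j : ℝ)) ^ k = β ^ k * ∑ j, (z j : ℝ) ^ k := by
    rw [mul_sum]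
    exact sum_congr rfl fun j _ => mul_pow _ _ _
  rw [h6]
  have h7 := abs_le.1 (hxz.trans h5.le)
  have h8 := abs_lt.1 (lt_of_le_of_lt hxz h5)
  rw [Nat.floor_eq_iff (by linarith [Nat.cast_nonneg (α := ℝ) n])]
  constructor <;> linarith

lemma order_zero (β : ℝ) (k s : ℕ) : Order β k s 0 ↔
    ∃ n₀ : ℕ, ∀ n ≥ n₀, ∃ x : Fin s → ℕ, ∑ i, x i ^ k = n := by
  have e : ∀ x : Fin s → ℕ, ⌊∑ i, (x i : ℝ) ^ k + ∑ j : Fin 0, (β * ((Fin.elim0 j : ℕ) : ℝ)) ^ k⌋₊ =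
      ∑ i, x i ^ k := by
    intro x
    have : ∑ i, (x i : ℝ) ^ k = ((∑ i, x i ^ k : ℕ) : ℝ) := by push_cast; rfl
    simp only [univ_eq_empty, sum_empty, add_zero]
    rw [this, Nat.floor_natCast]
  constructor
  · rintro ⟨n₀, h⟩
    refine ⟨n₀, fun n hn => ?_⟩
    obtain ⟨x, z, hx⟩ := h n hn
    refine ⟨x, ?_⟩
    rw [← hx, ← e x]
    simp only [univ_eq_empty, sum_empty]
  · rintro ⟨n₀, h⟩
    refine ⟨n₀, fun n hn => ?_⟩
    obtain ⟨x, hx⟩ := h n hn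
    refine ⟨x, fun j => Fin.elim0 j, ?_⟩
    rw [e x, hx]

/-- the trivial lower bound -/
theorem le_of_order {β : ℝ} (hβ : 0 < β) {k s t : ℕ} (h : Order β k s t) : k ≤ s + t := by
  by_contra hk
  push Not at hk
  obtain ⟨n₀, h⟩ := h
  -- the constant
  set C : ℝ := 2 + 1 / β with hC
  have hC0 : 0 < C := by positivity
  have hC1 : 1 ≤ C := by
    have : 0 < 1 / β := by positivity
    rw [hC]; linarith
  have key : ∀ X : ℕ, 1 ≤ X → (X : ℝ) ^ k ≤ n₀ + C ^ (s + t) * (X : ℝ) ^ (s + t) := by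
    intro X hX
    have hX1 : (1 : ℝ) ≤ X := by exact_mod_cast hX
    set A := Fintype.piFinset (fun _ : Fin s => range (X + 1)) with hA
    set B := Fintype.piFinset (fun _ : Fin t => range (⌊(X : ℝ) / β⌋₊ + 1)) with hB
    have h1 : Ico n₀ (X ^ k) ⊆ (A ×ˢ B).image
        (fun p => ⌊∑ i, (p.1 i : ℝ) ^ k + ∑ j, (β * p.2 j) ^ k⌋₊) := by
      intro n hn
      rw [mem_Ico] at hn
      obtain ⟨x, z, hxz⟩ := h n hn.1
      rw [mem_image]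
      refine ⟨(x, z), ?_, hxz⟩
      have h2 : ∑ i, (x i : ℝ) ^ k + ∑ j, (β * (z j : ℝ)) ^ k < (X : ℝ) ^ k := by
        have h3 := Nat.lt_floor_add_one (∑ i, (x i : ℝ) ^ k + ∑ j, (β * (z j : ℝ)) ^ k)
        rw [hxz] at h3
        have h4 : (n : ℝ) + 1 ≤ ((X ^ k : ℕ) : ℝ) := by exact_mod_cast hn.2
        push_cast at h4
        linarith
      have p1 : 0 ≤ ∑ i, (x i : ℝ) ^ k := by positivity
      have p2 : 0 ≤ ∑ j, (β * (z j : ℝ)) ^ k := by positivity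
      have hk0 : k ≠ 0 := by omega
      rw [mem_product, hA, hB, Fintype.mem_piFinset, Fintype.mem_piFinset]
      constructor
      · intro i
        rw [mem_range, Nat.lt_succ_iff]
        have h5 : (x i : ℝ) ^ k ≤ ∑ i, (x i : ℝ) ^ k :=
          single_le_sum (f := fun i => (x i : ℝ) ^ k) (fun _ _ => by positivity) (mem_univ i)
        have h6 : (x i : ℝ) ^ k < (X : ℝ) ^ k := by linarith
        have h7 := lt_of_pow_lt_pow_left₀ k (by positivity) h6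
        exact_mod_cast h7.le
      · intro j
        rw [mem_range, Nat.lt_succ_iff]
        have h5 : (β * (z j : ℝ)) ^ k ≤ ∑ j, (β * (z j : ℝ)) ^ k :=
          single_le_sum (f := fun j => (β * (z j : ℝ)) ^ k) (fun _ _ => by positivity) (mem_univ j)
        have h6 : (β * (z j : ℝ)) ^ k < (X : ℝ) ^ k := by linarith
        have h7 := lt_of_pow_lt_pow_left₀ k (by positivity) h6
        apply Nat.le_floor
        rw [le_div_iff₀ hβ]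
        linarith
    have h2 := (card_le_card h1).trans card_image_le
    rw [Nat.card_Ico, card_product, hA, hB, Fintype.card_piFinset, Fintype.card_piFinset] at h2
    simp only [card_range, prod_const, card_univ, Fintype.card_fin] at h2
    have h3 : X ^ k ≤ n₀ + (X + 1) ^ s * (⌊(X : ℝ) / β⌋₊ + 1) ^ t := by omega
    have h4 : (X : ℝ) ^ k ≤ n₀ + ((X : ℝ) + 1) ^ s * ((⌊(X : ℝ) / β⌋₊ : ℝ) + 1) ^ t := by
      exact_mod_cast h3
    refine h4.trans ?_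
    have h5 : ((X : ℝ) + 1) ≤ C * X := by
      rw [hC]
      have : 0 < 1 / β * X := by positivity
      nlinarith
    have h6 : ((⌊(X : ℝ) / β⌋₊ : ℝ) + 1) ≤ C * X := by
      have h7 := Nat.floor_le (show 0 ≤ (X : ℝ) / β by positivity)
      have h8 : C * X = 2 * X + X / β := by rw [hC]; ring
      rw [h8]
      linarith
    have h7 : ((X : ℝ) + 1) ^ s ≤ (C * X) ^ s := pow_le_pow_left₀ (by positivity) h5 _
    have h8 : ((⌊(X : ℝ) / β⌋₊ : ℝ) + 1) ^ t ≤ (C * X) ^ t := pow_le_pow_left₀ (by positivity) h6 _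
    have h9 : ((X : ℝ) + 1) ^ s * ((⌊(X : ℝ) / β⌋₊ : ℝ) + 1) ^ t ≤ (C * X) ^ s * (C * X) ^ t :=
      mul_le_mul h7 h8 (by positivity) (by positivity)
    have h10 : (C * (X : ℝ)) ^ s * (C * X) ^ t = C ^ (s + t) * (X : ℝ) ^ (s + t) := by
      rw [← pow_add, mul_pow]
    linarith
  obtain ⟨X, hX⟩ := exists_nat_gt (max 1 (n₀ + C ^ (s + t)))
  have hX1 : (1 : ℝ) < X := (le_max_left _ _).trans_lt hX
  have hX2 : (n₀ : ℝ) + C ^ (s + t) < X := (le_max_right _ _).trans_lt hX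
  have h1 := key X (by exact_mod_cast hX1.le)
  have h2 : (X : ℝ) * (X : ℝ) ^ (s + t) ≤ (X : ℝ) ^ k := by
    rw [← pow_succ']
    exact pow_le_pow_right₀ hX1.le hk
  have h3 : (1 : ℝ) ≤ (X : ℝ) ^ (s + t) := one_le_pow₀ hX1.le
  have h4 : (n₀ : ℝ) ≤ n₀ * (X : ℝ) ^ (s + t) := by
    have : (0 : ℝ) ≤ n₀ := by positivity
    nlinarith
  have h5 : ((n₀ : ℝ) + C ^ (s + t)) * (X : ℝ) ^ (s + t) < X * (X : ℝ) ^ (s + t) :=
    mul_lt_mul_of_pos_right hX2 (by linarith)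
  nlinarith

lemma half_pow {k : ℕ} (hk : 2 ≤ k) :
    (1 - 1 / (k : ℝ)) ^ ⌈k * Real.log 2⌉₊ < 1 / 2 := by
  have hk0 : (2 : ℝ) ≤ k := by exact_mod_cast hk
  have hkp : (0 : ℝ) < k := by linarith
  set m := ⌈k * Real.log 2⌉₊ with hm
  have hl : 0 < Real.log 2 := Real.log_pos (by norm_num)
  have hm0 : m ≠ 0 := by
    rw [hm]
    exact (Nat.ceil_pos.2 (by positivity)).ne'
  have h1 : 1 - 1 / (k : ℝ) < Real.exp (-(1 / (k : ℝ))) := by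
    have h2 := Real.add_one_lt_exp (show -(1 / (k : ℝ)) ≠ 0 by
      have : 0 < 1 / (k : ℝ) := by positivity
      linarith)
    linarith
  have h0 : 0 ≤ 1 - 1 / (k : ℝ) := by
    rw [sub_nonneg, div_le_one hkp]; linarith
  calc (1 - 1 / (k : ℝ)) ^ m < (Real.exp (-(1 / (k : ℝ)))) ^ m := pow_lt_pow_left₀ h1 h0 hm0
    _ = Real.exp (-(m / k)) := by
        rw [← Real.exp_nat_mul]; congr 1; ring
    _ ≤ Real.exp (-(Real.log 2)) := by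
        apply Real.exp_le_exp.2
        apply neg_le_neg
        rw [le_div_iff₀ hkp, mul_comm]
        exact Nat.le_ceil _
    _ = 1 / 2 := by rw [Real.exp_neg, Real.exp_log (by norm_num)]; norm_num

/-- **the main theorem** -/
theorem main : ∀ᵐ β : ℝ, 0 < β → ∀ k : ℕ, 2 ≤ k →
    Order β k (2 * ⌈k * Real.log 2⌉₊) (2 * ⌈k * Real.log 2⌉₊) ∧
    ∀ s t : ℕ, 1 ≤ t → t ≤ s → ∀ δ : ℝ, 0 ≤ δ →
      (1 - 1 / (k : ℝ)) ^ s + (1 - 1 / (k : ℝ)) ^ t + δ < 1 →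
      Order β k (2 * s) (2 * t) ∧ Near (β ^ k) k (2 * s) (2 * t) δ := by
  have h1 : ∀ k : ℕ, ∀ᵐ β : ℝ, 0 < β → 2 ≤ k → ∀ s t : ℕ, ∀ δ : ℝ, 1 ≤ k → 1 ≤ t → t ≤ s → 0 ≤ δ →
    (1 - 1 / (k : ℝ)) ^ s + (1 - 1 / (k : ℝ)) ^ t + δ < 1 → Near (β ^ k) k (2 * s) (2 * t) δ := by
    intro k
    by_cases hk : 1 ≤ k
    · filter_upwards [ae_pow near_all hk] with β hβ h0 _ s t δ
      exact hβ h0 (by positivity) k s t δ
    · filter_upwards with β _ h2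
      omega
  filter_upwards [ae_all_iff.2 h1] with β hβ h0 k hk
  have h2 : ∀ s t : ℕ, 1 ≤ t → t ≤ s → ∀ δ : ℝ, 0 ≤ δ →
      (1 - 1 / (k : ℝ)) ^ s + (1 - 1 / (k : ℝ)) ^ t + δ < 1 →
      Order β k (2 * s) (2 * t) ∧ Near (β ^ k) k (2 * s) (2 * t) δ := by
    intro s t ht hst δ hδ h
    refine ⟨?_, hβ k h0 hk s t δ (by omega) ht hst hδ h⟩
    obtain ⟨δ', h3, h4⟩ := exists_between (show δ < 1 - (1 - 1 / (k : ℝ)) ^ s -
      (1 - 1 / (k : ℝ)) ^ t by linarith)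
    exact order_of_near (δ := δ') (by linarith)
      (hβ k h0 hk s t δ' (by omega) ht hst (by linarith) (by linarith))
  refine ⟨?_, h2⟩
  have h3 := half_pow hk
  refine (h2 _ _ ?_ le_rfl 0 le_rfl (by linarith)).1
  have hkp : (0 : ℝ) < k := by exact_mod_cast (by omega : 0 < k)
  exact Nat.ceil_pos.2 (mul_pos hkp (Real.log_pos (by norm_num)))

end Pool.Agent.V7H21.MW
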